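import Pool.Agent.H552R8.DS.Stubs2

set_option autoImplicit false

namespace Pool.Agent.H552R8.DS.BASE

open Pool.Agent.Helper941 Pool.Agent.Helper941.Dim Pool.Agent.Helper941.IsoProb
open Pool.Agent.Helper941.Zeta
open Pool.Agent.Helper743 (TR RecT)

/-- the system with one named element for each number -/
def S0 (i x y : ℕ) : Prop := x = i ∧ y = i

/-- the relation -/
def R0 (A : ℕ → Prop) (x y : ℕ) : Prop := x = y ∧ A x

/-- the identity numbering -/
def cid : Constr S0 where
  nu := id
  surj := Function.surjective_id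
  eq_comp := p_eq (c_fst c_id) (c_snd c_id)
  rel_comp := p_and (p_eq (c_fst (c_snd c_id)) (c_fst c_id))
    (p_eq (c_snd (c_snd c_id)) (c_fst c_id))

theorem nu_comp (c : Constr S0) : Computable c.nu := by
  have hP : ComputablePred fun p : ℕ × ℕ => c.nu p.1 = p.2 := by
    have h1 : Computable fun p : ℕ × ℕ => (p.2, p.1, p.1) :=
      c_pair (c_snd c_id) (c_pair (c_fst c_id) (c_fst c_id))
    have h2 := computablePred_comp c.rel_comp h1
    exact h2.of_eq fun p => ⟨fun h => h.1, fun h => ⟨h, h⟩⟩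
  have h3 := c_least (P := fun a n : ℕ => c.nu a = n) hP (fun a => ⟨c.nu a, rfl⟩)
  refine h3.of_eq fun a => ?_
  have h4 := Nat.sInf_mem (s := {n | c.nu a = n}) ⟨c.nu a, rfl⟩
  exact h4.symm

theorem inv_comp (c : Constr S0) : ∃ h : ℕ → ℕ, Computable h ∧ ∀ n, c.nu (h n) = n := by
  have hP : ComputablePred fun p : ℕ × ℕ => c.nu p.2 = p.1 :=
    p_eq ((nu_comp c).comp (c_snd c_id)) (c_fst c_id)
  have hex : ∀ a, ∃ n, c.nu n = a := fun a => c.surj a
  have h3 := c_least (P := fun a n : ℕ => c.nu n = a) hP hex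
  exact ⟨_, h3, fun n => Nat.sInf_mem (s := {z | c.nu z = n}) (hex n)⟩

theorem ch_pos {P : ℕ → Prop} {n : ℕ} (h : P n) : ch P n = 1 := if_pos h

theorem ch_neg {P : ℕ → Prop} {n : ℕ} (h : ¬ P n) : ch P n = 0 := if_neg h

theorem key (A : ℕ → Prop) (c : Constr S0) : deg (img c.nu (R0 A)) = deg (ch A) := by
  classical
  have hn := nu_comp c
  have h1 : TR (img c.nu (R0 A)) (ch A) := by
    have e1 : TR (fun z => ch A (c.nu z.unpair.1)) (ch A) :=
      RecT.comp (TR.refl (ch A)) (Helper743.Computable.recT (hn.comp (c_up1 c_id)))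
    have e2 : TR (fun z => Nat.pair (ch A (c.nu z.unpair.1)) z) (ch A) :=
      RecT.pair e1 (Helper743.Computable.recT c_id)
    have e3 : Computable fun w : ℕ =>
        if c.nu w.unpair.2.unpair.1 = c.nu w.unpair.2.unpair.2 then w.unpair.1 else 0 :=
      c_ite (p_eq (hn.comp (c_up1 (c_up2 c_id))) (hn.comp (c_up2 (c_up2 c_id))))
        (c_up1 c_id) (c_const 0)
    have e4 : TR (fun z => (fun w : ℕ =>
        if c.nu w.unpair.2.unpair.1 = c.nu w.unpair.2.unpair.2 then w.unpair.1 else 0)
          (Nat.pair (ch A (c.nu z.unpair.1)) z)) (ch A) :=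
      RecT.comp (Helper743.Computable.recT e3) e2
    have e5 : img c.nu (R0 A) = (fun z => (fun w : ℕ =>
        if c.nu w.unpair.2.unpair.1 = c.nu w.unpair.2.unpair.2 then w.unpair.1 else 0)
          (Nat.pair (ch A (c.nu z.unpair.1)) z)) := by
      funext z
      simp only [Nat.unpair_pair]
      by_cases h : c.nu z.unpair.1 = c.nu z.unpair.2
      · by_cases h' : A (c.nu z.unpair.1)
        · rw [if_pos h, ch_pos h']
          exact ch_pos ⟨h, h'⟩
        · rw [if_pos h, ch_neg h']
          exact ch_neg fun q => h' q.2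
      · rw [if_neg h]
        exact ch_neg fun q => h q.1
    rw [e5]
    exact e4
  have h2 : TR (ch A) (img c.nu (R0 A)) := by
    obtain ⟨h, hh, hinv⟩ := inv_comp c
    have e1 : TR (fun n => img c.nu (R0 A) (Nat.pair (h n) (h n))) (img c.nu (R0 A)) :=
      RecT.comp (TR.refl _) (Helper743.Computable.recT (c_npair hh hh))
    have e2 : ch A = (fun n => img c.nu (R0 A) (Nat.pair (h n) (h n))) := by
      funext n
      by_cases h' : A n
      · rw [ch_pos h']
        refine (ch_pos ?_).symm
        simp only [Nat.unpair_pair, hinv]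
        exact ⟨rfl, h'⟩
      · rw [ch_neg h']
        refine (ch_neg ?_).symm
        simp only [Nat.unpair_pair, hinv]
        exact fun q => h' q.2
    have e3 := e1
    rw [← e2] at e3
    exact e3
  exact Quotient.sound (s := AntisymmRel.setoid (ℕ →. ℕ) TuringReducible)
    ⟨Helper743.TR_iff.1 h1, Helper743.TR_iff.1 h2⟩

theorem main : StBase := by
  intro A
  refine ⟨S0, R0 A, ⟨cid⟩, ?_⟩
  ext d
  constructor
  · rintro ⟨c, rfl⟩
    exact key A c
  · intro hd
    exact ⟨cid, by rw [key A cid]; exact hd⟩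

end Pool.Agent.H552R8.DS.BASE
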