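import Pool.Agent.H552R8.DS.Stubs

set_option autoImplicit false

namespace Pool.Agent.H552R8.DS.BIJ_b

open Pool.Agent.Helper941 Pool.Agent.Helper941.Dim Pool.Agent.Helper941.IsoProb
open Pool.Agent.Helper941.Zeta
open Pool.Agent.Helper743 (TR RecT)
open Pool.Agent.H552R8.DS

open Classical in
theorem c_count {D : ℕ → Prop} (hD : ComputablePred D) : Computable fun n => Nat.count D n := by
  have h : Computable fun n : ℕ =>
      (Nat.rec 0 (fun m y => if D m then y + 1 else y) n : ℕ) := by
    refine Computable.nat_rec (f := fun n : ℕ => n) (g := fun _ : ℕ => 0)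
      (h := fun (_ : ℕ) (q : ℕ × ℕ) => if D q.1 then q.2 + 1 else q.2)
      Computable.id (Computable.const 0) ?_
    exact c_ite (P := fun p : ℕ × (ℕ × ℕ) => D p.2.1)
      (computablePred_comp hD (c_fst (c_snd c_id)))
      (c_succ (c_snd (c_snd c_id))) (c_snd (c_snd c_id))
  refine h.of_eq fun n => ?_
  induction n with
  | zero => simp
  | succ n ih =>
    rw [Nat.count_succ]
    show (if D n then _ + 1 else _) = _
    rw [ih]
    split_ifs <;> simp

open Classical in
theorem main : StBij := by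
  intro S c
  obtain ⟨D, hDdef⟩ : ∃ D : ℕ → Prop, D = fun n => ∀ m < n, ¬ c.nu m = c.nu n := ⟨_, rfl⟩
  have hD : ComputablePred D := by
    rw [hDdef]
    exact p_ball (f := fun n : ℕ => n) (P := fun n m => ¬ c.nu m = c.nu n) c_id
      (p_not (computablePred_comp c.eq_comp (c_pair (c_snd c_id) (c_fst c_id))))
  have hDinj : ∀ a b, D a → D b → c.nu a = c.nu b → a = b := by
    intro a b ha hb h
    rw [hDdef] at ha hb
    rcases lt_trichotomy a b with h1 | h1 | h1
    · exact absurd h (hb a h1)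
    · exact h1
    · exact absurd h.symm (ha b h1)
  have hDsurj : ∀ y, ∃ n, D n ∧ c.nu n = y := by
    intro y
    refine ⟨Nat.find (c.surj y), ?_, Nat.find_spec (c.surj y)⟩
    rw [hDdef]
    intro m hm h
    exact Nat.find_min (c.surj y) hm (h.trans (Nat.find_spec (c.surj y)))
  have hinf : (setOf D).Infinite := by
    choose f hf1 hf2 using hDsurj
    have hinj : Function.Injective f := fun a b h => by
      rw [← hf2 a, ← hf2 b, h]
    exact (Set.infinite_range_of_injective hinj).mono (by rintro _ ⟨y, rfl⟩; exact hf1 y)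
  have hex : ∀ k : ℕ, ∃ n, D n ∧ Nat.count D n = k := fun k =>
    ⟨Nat.nth D k, Nat.nth_mem_of_infinite hinf k, Nat.count_nth_of_infinite hinf k⟩
  obtain ⟨s, hs1, hs2, hsc⟩ : ∃ s : ℕ → ℕ, (∀ k, D (s k)) ∧ (∀ k, Nat.count D (s k) = k) ∧
      Computable s := by
    refine ⟨fun k => sInf {n | D n ∧ Nat.count D n = k}, fun k => ?_, fun k => ?_, ?_⟩
    · exact (Nat.sInf_mem (s := {n | D n ∧ Nat.count D n = k}) (hex k)).1
    · exact (Nat.sInf_mem (s := {n | D n ∧ Nat.count D n = k}) (hex k)).2
    · exact c_least (P := fun k n => D n ∧ Nat.count D n = k)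
        (p_and (computablePred_comp hD (c_snd c_id))
          (p_eq ((c_count hD).comp (c_snd c_id)) (c_fst c_id))) hex
  have hs3 : ∀ n, D n → s (Nat.count D n) = n := fun n hn =>
    Nat.count_injective (hs1 _) hn (hs2 _)
  have hbij : Function.Bijective (fun k => c.nu (s k)) := by
    constructor
    · intro a b h
      have h1 := hDinj _ _ (hs1 a) (hs1 b) h
      rw [← hs2 a, ← hs2 b, h1]
    · intro y
      obtain ⟨n, hn, hy⟩ := hDsurj y
      exact ⟨Nat.count D n, by simp only [hs3 n hn, hy]⟩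
  obtain ⟨g, hg, hgc⟩ : ∃ g : ℕ → ℕ, (∀ n, c.nu (s (g n)) = c.nu n) ∧ Computable g := by
    have hex2 : ∀ n : ℕ, ∃ k, c.nu (s k) = c.nu n := fun n => hbij.2 (c.nu n)
    refine ⟨fun n => sInf {k | c.nu (s k) = c.nu n}, fun n => ?_, ?_⟩
    · exact Nat.sInf_mem (s := {k | c.nu (s k) = c.nu n}) (hex2 n)
    · exact c_least (P := fun n k => c.nu (s k) = c.nu n)
        (computablePred_comp c.eq_comp (c_pair (hsc.comp (c_snd c_id)) (c_fst c_id))) hex2
  refine ⟨Equiv.ofBijective _ hbij, ?_, fun R => ⟨?_, ?_⟩⟩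
  · exact computablePred_comp c.rel_comp (c_pair (c_fst c_id)
      (c_pair (hsc.comp (c_fst (c_snd c_id))) (hsc.comp (c_snd (c_snd c_id)))))
  · have h1 : RecT {((img (Equiv.ofBijective _ hbij) R : ℕ → ℕ) : ℕ →. ℕ)}
        (fun z => img (Equiv.ofBijective _ hbij) R (Nat.pair (g z.unpair.1) (g z.unpair.2))) :=
      RecT.comp (TR.refl _) (Pool.Agent.Helper743.Computable.recT
        (c_npair (hgc.comp (c_up1 c_id)) (hgc.comp (c_up2 c_id))))
    have h2 : (fun z => img (Equiv.ofBijective _ hbij) R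
        (Nat.pair (g z.unpair.1) (g z.unpair.2))) = img c.nu R := by
      funext z
      simp only [img, ch, Nat.unpair_pair, Equiv.ofBijective_apply, hg]
    rw [h2] at h1
    exact h1
  · have h1 : RecT {((img c.nu R : ℕ → ℕ) : ℕ →. ℕ)}
        (fun z => img c.nu R (Nat.pair (s z.unpair.1) (s z.unpair.2))) :=
      RecT.comp (TR.refl _) (Pool.Agent.Helper743.Computable.recT
        (c_npair (hsc.comp (c_up1 c_id)) (hsc.comp (c_up2 c_id))))
    have h2 : (fun z => img c.nu R (Nat.pair (s z.unpair.1) (s z.unpair.2))) =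
        img (Equiv.ofBijective _ hbij) R := by
      funext z
      simp only [img, ch, Nat.unpair_pair, Equiv.ofBijective_apply]
    rw [h2] at h1
    exact h1

end Pool.Agent.H552R8.DS.BIJ_b
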