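import Pool.Agent.H552R8.DS.Stubs

set_option autoImplicit false

namespace Pool.Agent.H552R8.DS.DEG

open Pool.Agent.Helper941 Pool.Agent.Helper941.Dim Pool.Agent.Helper941.IsoProb
open Pool.Agent.Helper941.Zeta
open Pool.Agent.Helper743 (TR RecT)
open Pool.Agent.H552R8.DS

theorem img_pos {R : ℕ → ℕ → Prop} {x y : ℕ} (h : R x y) : img id R (Nat.pair x y) = 1 := by
  unfold img ch
  refine if_pos ?_
  show R (id (Nat.unpair (Nat.pair x y)).1) (id (Nat.unpair (Nat.pair x y)).2)
  rw [Nat.unpair_pair]
  exact h

theorem img_neg {R : ℕ → ℕ → Prop} {x y : ℕ} (h : ¬ R x y) : img id R (Nat.pair x y) = 0 := by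
  unfold img ch
  refine if_neg ?_
  show ¬ R (id (Nat.unpair (Nat.pair x y)).1) (id (Nat.unpair (Nat.pair x y)).2)
  rw [Nat.unpair_pair]
  exact h

theorem img_iff {R : ℕ → ℕ → Prop} {x y : ℕ} : img id R (Nat.pair x y) = 1 ↔ R x y := by
  by_cases h : R x y
  · exact ⟨fun _ => h, fun _ => img_pos h⟩
  · rw [img_neg h]
    exact ⟨fun h' => absurd h' (by norm_num), fun h' => absurd h' h⟩

theorem ch_iff {P : ℕ → Prop} {n : ℕ} : ch P n = 1 ↔ P n := by
  unfold ch
  by_cases h : P n
  · rw [if_pos h]; exact ⟨fun _ => h, fun _ => rfl⟩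
  · rw [if_neg h]; exact ⟨fun h' => absurd h' (by norm_num), fun h' => absurd h' h⟩

theorem main : StDeg := by
  classical
  intro T p t vi h hc A F hF
  have hpa : Computable (PA T) := con_pa h.comp c_prn
  have hel : Computable (el (PA T)) := c_el hpa
  have hidx : Computable (idx (PA T)) := c_idx hpa
  refine ⟨?_, ?_, ?_⟩
  · -- computation of the relation
    obtain ⟨D, hD⟩ : ∃ D : ℕ → ℕ, D = fun w => if
        (w.unpair.1.unpair.1 = w.unpair.1.unpair.2 ∧
          (el (PA T) w.unpair.1.unpair.1).unpair.2 = w.unpair.2.unpair.1) ∨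
        (¬ w.unpair.1.unpair.1 = w.unpair.1.unpair.2 ∧
          ((el (PA T) w.unpair.1.unpair.2).unpair.1 = 0 ∧ w.unpair.2.unpair.2 = 1))
        then 1 else 0 := ⟨_, rfl⟩
    have hDc : Computable D := by
      rw [hD]
      have z1 : Computable fun w : ℕ => w.unpair.1.unpair.1 := c_up1 (c_up1 c_id)
      have z2 : Computable fun w : ℕ => w.unpair.1.unpair.2 := c_up2 (c_up1 c_id)
      have f1 : Computable fun w : ℕ => w.unpair.2.unpair.1 := c_up1 (c_up2 c_id)
      have a1 : Computable fun w : ℕ => w.unpair.2.unpair.2 := c_up2 (c_up2 c_id)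
      exact c_ite (p_or (p_and (p_eq z1 z2) (p_eq (c_up2 (hel.comp z1)) f1))
        (p_and (p_not (p_eq z1 z2)) (p_and (p_eq (c_up1 (hel.comp z2)) (c_const 0))
          (p_eq a1 (c_const 1))))) (c_const 1) (c_const 0)
    have e1 : Computable fun z : ℕ => (el (PA T) z.unpair.1).unpair.1 :=
      c_up1 (hel.comp (c_up1 c_id))
    have hA := (Pool.Agent.Helper743.TR_join_left (ch A) F)
    have hF' := (Pool.Agent.Helper743.TR_join_right (ch A) F)
    have hG : RecT {((Pool.Agent.Helper743.join (ch A) F : ℕ → ℕ) : ℕ →. ℕ)} fun z =>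
        Nat.pair z (Nat.pair (F (el (PA T) z.unpair.1).unpair.1)
          (ch A (el (PA T) z.unpair.1).unpair.1)) :=
      RecT.pair (Pool.Agent.Helper743.Computable.recT Computable.id)
        (RecT.pair (RecT.comp hF' (Pool.Agent.Helper743.Computable.recT e1))
          (RecT.comp hA (Pool.Agent.Helper743.Computable.recT e1)))
    have h5 := RecT.comp (Pool.Agent.Helper743.Computable.recT hDc) hG
    have h6 : (fun z => D (Nat.pair z (Nat.pair (F (el (PA T) z.unpair.1).unpair.1)
          (ch A (el (PA T) z.unpair.1).unpair.1)))) = img id (RF T A F) := by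
      funext z
      rw [hD]
      simp only [Nat.unpair_pair]
      unfold img
      have h7 : ∀ (P : Prop) [Decidable P], (P ↔ RF T A F (id z.unpair.1) (id z.unpair.2)) →
          (if P then 1 else 0 : ℕ) =
            ch (fun z => RF T A F (id z.unpair.1) (id z.unpair.2)) z := by
        intro P _ hP
        unfold ch
        by_cases h8 : P
        · rw [if_pos h8, if_pos (hP.1 h8)]
        · rw [if_neg h8, if_neg (fun h9 => h8 (hP.2 h9))]
      apply h7
      unfold RF
      rw [ch_iff]
      rfl
    rw [h6] at h5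
    exact h5
  · -- computation of `A`
    have ht0 : t 0 = 2 ^ vi 1 := by
      have := hc.one 0
      rw [hc.zero] at this
      exact this
    have hv0 : Valid (PA T) (Nat.pair 0 0) := valid_base _ 0
    have hv1 : Valid (PA T) (Nat.pair 0 (t 0)) := by
      intro u hu
      rw [Nat.unpair_pair] at hu ⊢
      exact hc.flow.child 0 u hu
    have hne : idx (PA T) (Nat.pair 0 0) ≠ idx (PA T) (Nat.pair 0 (t 0)) := by
      intro he
      have h1 := congrArg (el (PA T)) he
      rw [el_idx hv0, el_idx hv1, Nat.pair_eq_pair] at h1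
      have h2 : (0 : ℕ) < 2 ^ vi 1 := by positivity
      omega
    obtain ⟨Y, hY⟩ : ∃ Y : ℕ → ℕ, Y = fun v => if idx (PA T) (Nat.pair v 0) =
        idx (PA T) (Nat.pair 0 0) then idx (PA T) (Nat.pair 0 (t 0))
        else idx (PA T) (Nat.pair 0 0) := ⟨_, rfl⟩
    have cx : Computable fun v : ℕ => idx (PA T) (Nat.pair v 0) :=
      hidx.comp (c_npair c_id (c_const 0))
    have cY : Computable Y := by
      rw [hY]
      exact c_ite (p_eq cx (c_const _)) (c_const _) (c_const _)
    have h5 : RecT {((img id (RF T A F) : ℕ → ℕ) : ℕ →. ℕ)} fun v =>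
        img id (RF T A F) (Nat.pair (idx (PA T) (Nat.pair v 0)) (Y v)) :=
      RecT.comp (Pool.Agent.Helper743.TR.refl (img id (RF T A F)))
        (Pool.Agent.Helper743.Computable.recT (c_npair cx cY))
    have h6 : (fun v => img id (RF T A F) (Nat.pair (idx (PA T) (Nat.pair v 0)) (Y v))) =
        ch A := by
      funext v
      have hx : el (PA T) (idx (PA T) (Nat.pair v 0)) = Nat.pair v 0 :=
        el_idx (valid_base _ v)
      have hxy : idx (PA T) (Nat.pair v 0) ≠ Y v := by
        rw [hY]
        dsimp only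
        by_cases h8 : idx (PA T) (Nat.pair v 0) = idx (PA T) (Nat.pair 0 0)
        · rw [if_pos h8, h8]; exact hne
        · rw [if_neg h8]; exact h8
      have hy : (el (PA T) (Y v)).unpair.1 = 0 := by
        rw [hY]
        dsimp only
        by_cases h8 : idx (PA T) (Nat.pair v 0) = idx (PA T) (Nat.pair 0 0)
        · rw [if_pos h8, el_idx hv1, Nat.unpair_pair]
        · rw [if_neg h8, el_idx hv0, Nat.unpair_pair]
      have hR : RF T A F (idx (PA T) (Nat.pair v 0)) (Y v) ↔ A v := by
        unfold RF
        rw [hx, Nat.unpair_pair]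
        constructor
        · rintro (h9 | h9)
          · exact absurd h9.1 hxy
          · exact h9.2.2
        · intro h9
          exact Or.inr ⟨hxy, hy, h9⟩
      by_cases h9 : A v
      · rw [img_pos (hR.2 h9), ch_iff.2 h9]
      · rw [img_neg (fun h10 => h9 (hR.1 h10))]
        unfold ch
        rw [if_neg h9]
    rw [h6] at h5
    exact h5
  · -- computation of `F`
    obtain ⟨D, hD⟩ : ∃ D : ℕ → ℕ, D = fun w => if Valid (PA T) w.unpair.1 ∧ w.unpair.2 = 1
        then 0 else 1 := ⟨_, rfl⟩
    have hDc : Computable D := by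
      rw [hD]
      exact c_ite (p_and (computablePred_comp (p_valid hpa) (c_up1 c_id))
        (p_eq (c_up2 c_id) (c_const 1))) (c_const 0) (c_const 1)
    have hG : RecT {((img id (RF T A F) : ℕ → ℕ) : ℕ →. ℕ)} fun w =>
        Nat.pair w (img id (RF T A F) (Nat.pair (idx (PA T) w) (idx (PA T) w))) :=
      RecT.pair (Pool.Agent.Helper743.Computable.recT Computable.id)
        (RecT.comp (Pool.Agent.Helper743.TR.refl (img id (RF T A F)))
          (Pool.Agent.Helper743.Computable.recT (c_npair hidx hidx)))
    have h5 := RecT.comp (Pool.Agent.Helper743.Computable.recT hDc) hG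
    have hD0 : ∀ w, D w = 0 ↔ (Valid (PA T) w.unpair.1 ∧ w.unpair.2 = 1) := by
      intro w
      rw [hD]
      dsimp only
      split_ifs with h8
      · exact ⟨fun _ => h8, fun _ => rfl⟩
      · exact ⟨fun h9 => absurd h9 (by norm_num), fun h9 => absurd h9 h8⟩
    have key : ∀ v X : ℕ, D (Nat.pair (Nat.pair v X) (img id (RF T A F)
        (Nat.pair (idx (PA T) (Nat.pair v X)) (idx (PA T) (Nat.pair v X))))) = 0 ↔ X = F v := by
      intro v X
      rw [hD0, Nat.unpair_pair]
      dsimp only
      rw [img_iff]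
      constructor
      · rintro ⟨h10, h11⟩
        unfold RF at h11
        rw [el_idx h10, Nat.unpair_pair] at h11
        rcases h11 with h11 | h11
        · exact h11.2
        · exact absurd rfl h11.1
      · rintro rfl
        have hval : Valid (PA T) (Nat.pair v (F v)) := by
          intro u hu
          rw [Nat.unpair_pair] at hu ⊢
          exact hF.child v u hu
        refine ⟨hval, ?_⟩
        unfold RF
        left
        refine ⟨rfl, ?_⟩
        rw [el_idx hval, Nat.unpair_pair]
    have hex : ∀ a, ∃ n, (fun w => D (Nat.pair w (img id (RF T A F)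
        (Nat.pair (idx (PA T) w) (idx (PA T) w))))) (Nat.pair a n) = 0 :=
      fun a => ⟨F a, (key a (F a)).2 rfl⟩
    have h6 := RecT.find h5 hex
    have h7 : (fun a => Nat.find (hex a)) = F := by
      funext a
      have h8 := Nat.find_spec (hex a)
      exact (key a _).1 h8
    rw [h7] at h6
    exact h6

end Pool.Agent.H552R8.DS.DEG
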