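import Pool.Agent.H552R8.DS.Stubs

set_option autoImplicit false
set_option maxHeartbeats 400000

namespace Pool.Agent.H552R8.DS.FLOW

open Pool.Agent.Helper941 Pool.Agent.Helper941.Dim Pool.Agent.Helper941.IsoProb
open Pool.Agent.Helper743 (TR RecT)
open Pool.Agent.H552R8.DS

/-- FLOW: the flow along the path. (helper965, after `exists_flip`) -/
theorem main : StFlow := by
  classical
  intro T p h
  have hS : Spec T prn (con T prn) := con_spec T prn
  have hT := h.th
  obtain ⟨g, hg⟩ := exists_tp (d := con T prn) hS.O_le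
  choose vi hvi using fun i => pers_exists hS hg (nod p i) (h.mem i)
  have hlen : ∀ i, len ((con T prn).J (vi i) - 1) = i := by
    intro i
    rw [(hvi i).1, Nat.add_sub_cancel, len_nod]
  have hpa : ∀ i, 1 ≤ vi (i + 1) ∧ PA T (vi (i + 1)) = vi i := by
    intro i
    obtain ⟨h1, h2⟩ := (hvi (i + 1)).pa hS hT (nod_pos _ i)
    rw [prn_nod] at h2
    exact ⟨h1, h2.uniq hS hT hg (hvi i)⟩
  have h0 : vi 0 = 0 := (hvi 0).uniq hS hT hg (pers_zero hS)
  have hCh : ∀ v, Chn T p v ↔ ∃ i, v = vi i := by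
    intro v
    constructor
    · rintro ⟨h1, h2, h3⟩
      refine ⟨len ((con T prn).J v - 1), ?_⟩
      have h4 := (pers_iff hg (show (con T prn).J v = ((con T prn).J v - 1) + 1 by omega)).2 h3
      have h5 := hvi (len ((con T prn).J v - 1))
      rw [← h2] at h5
      exact h4.uniq hS hT hg h5
    · rintro ⟨i, rfl⟩
      refine ⟨by rw [(hvi i).1]; omega, ?_, (pers_iff hg (hvi i).1).1 (hvi i)⟩
      rw [hlen, (hvi i).1, Nat.add_sub_cancel]
  let t : ℕ → ℕ := fun v => if Chn T p v then 2 ^ vi (len ((con T prn).J v - 1) + 1) else 0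
  have ht1 : ∀ i, t (vi i) = 2 ^ vi (i + 1) := by
    intro i
    show (if Chn T p (vi i) then _ else _) = _
    rw [if_pos ((hCh _).2 ⟨i, rfl⟩), hlen]
  have ht2 : ∀ v, ¬ Chn T p v → t v = 0 := fun v hv => if_neg hv
  refine ⟨t, vi, ⟨⟨?_, ?_⟩, h0, ht1, ?_, fun i => (hvi i).1, hCh⟩⟩
  · intro v u hu
    by_cases hv : Chn T p v
    · obtain ⟨i, rfl⟩ := (hCh v).1 hv
      rw [ht1, two_pow_bit] at hu
      rw [hu]
      exact hpa i
    · rw [ht2 v hv] at hu
      simp at hu
  · intro u hu
    by_cases hv : Chn T p u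
    · obtain ⟨i, rfl⟩ := (hCh u).1 hv
      cases i with
      | zero => omega
      | succ i =>
        have h1 : PA T (vi (i + 1)) = vi i := (hpa i).2
        rw [h1, ht1, ht1, par_two_pow]
        exact two_pow_bit.2 rfl
    · rw [ht2 u hv]
      by_contra hc
      have h1 : (t (PA T u)).testBit u = true := by
        by_contra hc'
        simp only [Bool.not_eq_true] at hc'
        exact hc (by rw [hc']; rfl)
      by_cases hv' : Chn T p (PA T u)
      · obtain ⟨i, hi⟩ := (hCh _).1 hv'
        rw [hi, ht1, two_pow_bit] at h1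
        exact hv ((hCh u).2 ⟨i + 1, h1⟩)
      · rw [ht2 _ hv'] at h1
        simp at h1
  · intro v hv
    exact ht2 v fun hc => by
      obtain ⟨i, hi⟩ := (hCh v).1 hc
      exact hv i hi

end Pool.Agent.H552R8.DS.FLOW
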