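import Mathlib
import Pool.Agent.Helper941.Dim.Final
import Pool.Agent.Helper743.Oracle

set_option autoImplicit false

namespace Pool.Agent.H552R8.DS

open Pool.Agent.Helper941 Pool.Agent.Helper941.Dim Pool.Agent.Helper941.IsoProb
open Pool.Agent.Helper743 (TR RecT)

/-- A constructivization of the algebraic system with carrier `A` and the binary relations
`S 0, S 1, ...` -/
structure Constr {A : Type} (S : ℕ → A → A → Prop) where
  nu : ℕ → A
  surj : Function.Surjective nu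
  eq_comp : ComputablePred fun p : ℕ × ℕ => nu p.1 = nu p.2
  rel_comp : ComputablePred fun q : ℕ × ℕ × ℕ => S q.1 (nu q.2.1) (nu q.2.2)

open Classical in
/-- the characteristic function of a set of natural numbers -/
noncomputable def ch (P : ℕ → Prop) (n : ℕ) : ℕ := if P n then 1 else 0

/-- the preimage of a binary relation, as a set of coded pairs -/
noncomputable def img {A : Type} (nu : ℕ → A) (R : A → A → Prop) : ℕ → ℕ :=
  ch fun z => R (nu z.unpair.1) (nu z.unpair.2)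

/-- the Turing degree of a function -/
def deg (f : ℕ → ℕ) : TuringDegree :=
  toAntisymmetrization TuringReducible (fun z => Part.some (f z))

/-- the degree spectrum of the relation `R` -/
def DgSp {A : Type} (S : ℕ → A → A → Prop) (R : A → A → Prop) : Set TuringDegree :=
  {d | ∃ c : Constr S, d = deg (img c.nu R)}

/-- trees (of codes of finite sequences) with a unique path -/
structure UP (T : ℕ → Prop) (p : ℕ → ℕ) : Prop where
  comp : ComputablePred T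
  th : TH T prn
  mem : ∀ i, T (nod p i)
  uniq : ∀ l : ℕ → ℕ, l 0 = 0 → (∀ k, 1 ≤ l (k + 1)) → (∀ k, prn (l (k + 1)) = l k) →
    (∀ k, T (l k)) → ∀ k, l k = nod p k

/-- the parent function of the structure for the tree `T` -/
noncomputable def PA (T : ℕ → Prop) : ℕ → ℕ := (con T prn).pa

/-- a true node with a label on the path -/
def Chn (T : ℕ → Prop) (p : ℕ → ℕ) (v : ℕ) : Prop :=
  (con T prn).J v ≠ 0 ∧ (con T prn).J v - 1 = nod p (len ((con T prn).J v - 1)) ∧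
    PN (con T prn) v

/-- `t` is the flow along the chain of true nodes `vi 0, vi 1, ...` on the path -/
structure Ch2 (T : ℕ → Prop) (p t vi : ℕ → ℕ) : Prop where
  flow : Flow (PA T) t
  zero : vi 0 = 0
  one : ∀ i, t (vi i) = 2 ^ vi (i + 1)
  off : ∀ v, (∀ i, v ≠ vi i) → t v = 0
  lab : ∀ i, (con T prn).J (vi i) = nod p i + 1
  chn : ∀ v, Chn T p v ↔ ∃ i, v = vi i

def StFlow : Prop := ∀ T p, UP T p → ∃ t vi, Ch2 T p t vi

def StInf : Prop := ∀ T p t vi, UP T p → Ch2 T p t vi → ∀ a : ℕ → ℕ, a 0 = 0 →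
  (∀ k, 1 ≤ a (k + 1) ∧ PA T (a (k + 1)) = a k) → ∀ k, a k = vi k

def StRig : Prop := ∀ T p t vi, UP T p → Ch2 T p t vi →
  (∀ a : ℕ → ℕ, a 0 = 0 → (∀ k, 1 ≤ a (k + 1) ∧ PA T (a (k + 1)) = a k) → ∀ k, a k = vi k) →
  ∀ F, Flow (PA T) F → (par (F 0) = false → ∀ v, F v = 0) ∧ (par (F 0) = true → F = t)

def StIso : Prop := ∀ T p t vi, UP T p → Ch2 T p t vi → ∀ (b c : Bool) (f : ℕ ≃ ℕ),
  IsIso (As (PA T) b) (As (PA T) c) f →
  ∃ F, Flow (PA T) F ∧ par (F 0) = (b ^^ c) ∧ ∀ x, el (PA T) (f x) = sh F (el (PA T) x)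

def StBij : Prop := ∀ (S : Str) (c : Constr S), ∃ e : ℕ ≃ ℕ,
  IsComp (fun i x y => S i (e x) (e y)) ∧
  ∀ R : ℕ → ℕ → Prop, TR (img c.nu R) (img e R) ∧ TR (img e R) (img c.nu R)

/-- the relation in coordinates -/
def RF (T : ℕ → Prop) (A : ℕ → Prop) (F : ℕ → ℕ) (x y : ℕ) : Prop :=
  (x = y ∧ (el (PA T) x).unpair.2 = F (el (PA T) x).unpair.1) ∨
  (x ≠ y ∧ (el (PA T) y).unpair.1 = 0 ∧ A (el (PA T) x).unpair.1)

def StDeg : Prop := ∀ T p t vi, UP T p → Ch2 T p t vi → ∀ A : ℕ → Prop, ∀ F, Flow (PA T) F →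
  TR (img id (RF T A F)) (Pool.Agent.Helper743.join (ch A) F) ∧
  TR (ch A) (img id (RF T A F)) ∧ TR F (img id (RF T A F))

def StTup : Prop := ∀ T p t vi, UP T p → Ch2 T p t vi → TR p t

def StTlow : Prop := ∀ T p t vi, UP T p → Ch2 T p t vi → ∀ c : ℕ → ℕ, TR p c →
  (∀ S : ℕ → Prop, Sigma0 2 S → TR (ch S) c) → TR t c

/-- active positions -/
def act (K e i : ℕ) : Prop := i.unpair.1 ≤ K ∨ (i.unpair.1 = K + 1 ∧ i.unpair.2.unpair.1 = e)

open Classical in
/-- the path for the set `Un (K + 1) (e, _)` -/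
noncomputable def pB (K e i : ℕ) : ℕ := if act K e i then fk i.unpair.1 i.unpair.2 else 0

def LocB (K e : ℕ) (g : ℕ → ℕ) (l i : ℕ) : Prop :=
  (¬ act K e i → g i = 0) ∧ (act K e i → (∀ y < g i, y + 1 = g i →
    kn l i.unpair.1 i.unpair.2 y → tst g i.unpair.1 i.unpair.2 y) ∧
    ∀ y < l + g i, (y + 1 < g i ∨ g i = 0) → kn l i.unpair.1 i.unpair.2 y →
      ¬ tst g i.unpair.1 i.unpair.2 y)

def TB (K e j : ℕ) : Prop := ∀ i < len j, LocB K e (dig j) (len j) i

def StTree : Prop := ∀ K e, UP (TB K e) (pB K e)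

def StTB1 : Prop := ∀ (K : ℕ) (B : ℕ → Prop), Sigma0 (K + 2) B → ∃ e, TR (ch B) (pB K e) ∧
  ∀ c : ℕ → ℕ, (∀ S : ℕ → Prop, Sigma0 (K + 1) S → TR (ch S) c) → TR (ch B) c →
    TR (pB K e) c

/-- the final theorem -/
def StMain : Prop := ∀ (n : ℕ), 3 ≤ n → ∀ B : ℕ → Prop, Sigma0 n B →
  (∀ S : ℕ → Prop, Sigma0 (n - 1) S → TR (ch S) (ch B)) → ∀ A : ℕ → Prop,
  ∃ (S : ℕ → ℕ → ℕ → Prop) (R : ℕ → ℕ → Prop), Nonempty (Constr S) ∧
    DgSp S R = {deg (ch A), deg (Pool.Agent.Helper743.join (ch A) (ch B))}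

end Pool.Agent.H552R8.DS
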