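import Mathlib
import Pool.Agent.H552R8.DS.Stubs

set_option autoImplicit false

namespace Pool.Agent.H552R8.DS

open Pool.Agent.Helper941 Pool.Agent.Helper941.Dim Pool.Agent.Helper941.IsoProb
open Pool.Agent.Helper941.Zeta
open Pool.Agent.Helper743 (TR RecT)

theorem deg_eq {f g : ℕ → ℕ} (h1 : TR f g) (h2 : TR g f) : deg f = deg g :=
  Quotient.sound (s := AntisymmRel.setoid (ℕ →. ℕ) TuringReducible)
    ⟨Pool.Agent.Helper743.TR_iff.1 h1, Pool.Agent.Helper743.TR_iff.1 h2⟩

theorem ch_congr {P Q : ℕ → Prop} {a b : ℕ} (h : P a ↔ Q b) : ch P a = ch Q b := by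
  unfold ch
  by_cases h1 : P a
  · rw [if_pos h1, if_pos (h.1 h1)]
  · rw [if_neg h1, if_neg (fun h2 => h1 (h.2 h2))]

theorem img_comp {A : Type} (e : ℕ → A) (R : A → A → Prop) (h : ℕ → ℕ) (hh : Computable h) :
    TR (img (fun n => e (h n)) R) (img e R) := by
  have h1 : Computable fun z : ℕ => Nat.pair (h z.unpair.1) (h z.unpair.2) :=
    Primrec₂.natPair.to_comp.comp (hh.comp (Computable.fst.comp Computable.unpair))
      (hh.comp (Computable.snd.comp Computable.unpair))
  have h2 := RecT.comp (Pool.Agent.Helper743.TR.refl (img e R))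
    (Pool.Agent.Helper743.Computable.recT (O := {(img e R : ℕ →. ℕ)}) h1)
  refine Nat.RecursiveIn.of_eq h2 fun z => ?_
  congr 1
  refine ch_congr ?_
  rw [Nat.unpair_pair]

theorem rf_congr {T : ℕ → Prop} {A : ℕ → Prop} {F : ℕ → ℕ} {f : ℕ ≃ ℕ}
    (h : ∀ x, el (PA T) (f x) = sh F (el (PA T) x)) :
    img f (RF T A fun _ => 0) = img id (RF T A F) := by
  funext z
  refine ch_congr ?_
  show RF T A (fun _ => 0) (f z.unpair.1) (f z.unpair.2) ↔ RF T A F z.unpair.1 z.unpair.2
  unfold RF
  rw [h, h, sh_fst, sh_snd, sh_fst, f.injective.ne_iff, f.injective.eq_iff, Nat.xor_eq_zero_iff]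

theorem degF (hDeg : StDeg) {T : ℕ → Prop} {p t vi : ℕ → ℕ} (hUP : UP T p)
    (hC : Ch2 T p t vi) {B : ℕ → Prop} (htB : TR t (ch B)) (hBt : TR (ch B) t)
    (A : ℕ → Prop) {F : ℕ → ℕ} (hF : Flow (PA T) F) :
    ((∀ v, F v = 0) → deg (img id (RF T A F)) = deg (ch A)) ∧
    (F = t → deg (img id (RF T A F)) = deg (Pool.Agent.Helper743.join (ch A) (ch B))) := by
  obtain ⟨h1, h2, h3⟩ := hDeg T p t vi hUP hC A F hF
  constructor
  · intro h
    refine deg_eq (h1.trans ?_) h2
    refine Pool.Agent.Helper743.TR_join (Pool.Agent.Helper743.TR.refl _) ?_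
    have : F = fun _ => 0 := funext h
    rw [this]
    exact Pool.Agent.Helper743.Computable.recT (Computable.const 0)
  · intro h
    subst h
    refine deg_eq (h1.trans ?_) (Pool.Agent.Helper743.TR_join h2 (hBt.trans h3))
    exact Pool.Agent.Helper743.TR_join (Pool.Agent.Helper743.TR_join_left _ _)
      (htB.trans (Pool.Agent.Helper743.TR_join_right _ _))

theorem main (hFlow : StFlow) (hInf : StInf) (hRig : StRig) (hIso : StIso) (hBij : StBij)
    (hDeg : StDeg) (hTup : StTup) (hTlow : StTlow) (hTree : StTree) (hTB1 : StTB1) : StMain := by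
  intro n hn B hB hlow A
  obtain ⟨K, rfl⟩ : ∃ K, n = K + 2 := ⟨n - 2, by omega⟩
  have hK : 1 ≤ K := by omega
  obtain ⟨e, hBp, hpc⟩ := hTB1 K B hB
  have hUP := hTree K e
  generalize TB K e = T at hUP
  generalize pB K e = p at hUP hBp hpc
  obtain ⟨t, vi, hC⟩ := hFlow T p hUP
  have hR := hRig T p t vi hUP hC (hInf T p t vi hUP hC)
  have hpB : TR p (ch B) := hpc (ch B) hlow (Pool.Agent.Helper743.TR.refl _)
  have hS2 : ∀ S : ℕ → Prop, Sigma0 2 S → TR (ch S) (ch B) := fun S hS =>
    hlow S (Sigma0.lift hS (by omega))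
  have htB : TR t (ch B) := hTlow T p t vi hUP hC (ch B) hpB hS2
  have hBt : TR (ch B) t := Pool.Agent.Helper743.TR.trans hBp (hTup T p t vi hUP hC)
  have hpa : Computable (PA T) := con_pa hUP.comp c_prn
  have h0 : par (t 0) = true := by
    have := hC.one 0
    rw [hC.zero] at this
    rw [this, par_two_pow]
  have hZ : Flow (PA T) fun _ => 0 := by
    refine ⟨fun v u hu => by simp at hu, fun u hu => ?_⟩
    rw [Nat.zero_testBit]
    rfl
  refine ⟨As (PA T) false, RF T A fun _ => 0, ⟨⟨id, Function.surjective_id, ?_, ?_⟩⟩, ?_⟩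
  · exact p_eq (c_fst c_id) (c_snd c_id)
  · exact as_comp hpa false
  · ext d
    constructor
    · rintro ⟨c, rfl⟩
      obtain ⟨e', hcomp, hTR⟩ := hBij (As (PA T) false) c
      have hcopy : IsCopy (As (con T prn).pa false)
          (fun i x y => As (PA T) false i (e' x) (e' y)) :=
        ⟨hcomp, e'.symm, fun i x y => by
          show As (PA T) false i x y ↔
            As (PA T) false i (e' (e'.symm x)) (e' (e'.symm y))
          rw [e'.apply_symm_apply, e'.apply_symm_apply]⟩
      obtain ⟨b, h, hh, hhc⟩ := copies hUP.comp c_prn hUP.th hcopy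
      have hf : IsIso (As (PA T) b) (As (PA T) false) (h.trans e') := fun i x y => hh i x y
      obtain ⟨F, hF, hF0, hFx⟩ := hIso T p t vi hUP hC b false _ hf
      have e1 : deg (img c.nu (RF T A fun _ => 0)) = deg (img e' (RF T A fun _ => 0)) :=
        deg_eq (hTR _).1 (hTR _).2
      have e2 : deg (img e' (RF T A fun _ => 0)) = deg (img (h.trans e') (RF T A fun _ => 0)) := by
        refine deg_eq ?_ (img_comp e' _ h hhc)
        have := img_comp (h.trans e') (RF T A fun _ => 0) h.symm (computable_symm hhc)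
        have h5 : (fun n => (h.trans e') (h.symm n)) = e' := by
          funext n
          simp
        rw [h5] at this
        exact this
      rw [e1, e2, rf_congr hFx]
      have hd := degF hDeg hUP hC htB hBt A hF
      cases b with
      | false =>
        left
        exact hd.1 ((hR F hF).1 (by rw [hF0]; rfl))
      | true =>
        right
        exact hd.2 ((hR F hF).2 (by rw [hF0]; rfl))
    · rintro (rfl | rfl)
      · refine ⟨⟨id, Function.surjective_id, p_eq (c_fst c_id) (c_snd c_id),
          as_comp hpa false⟩, ?_⟩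
        exact ((degF hDeg hUP hC htB hBt A hZ).1 fun _ => rfl).symm
      · have hCI : CIso (PA T) true (As (PA T) false) fun q => idx (PA T) (sh t q) := by
          refine ⟨fun i q q' hq hq' => ?_, fun q q' hq hq' h => ?_, fun z => ?_⟩
          · rw [sh_rel hC.flow, h0]
            show _ ↔ Rel (PA T) false i (el (PA T) (idx (PA T) (sh t q)))
              (el (PA T) (idx (PA T) (sh t q')))
            rw [el_idx (sh_valid hC.flow hq), el_idx (sh_valid hC.flow hq')]
            rfl
          · have h1 : el (PA T) (idx (PA T) (sh t q)) = el (PA T) (idx (PA T) (sh t q')) := by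
              rw [show idx (PA T) (sh t q) = idx (PA T) (sh t q') from h]
            rw [el_idx (sh_valid hC.flow hq), el_idx (sh_valid hC.flow hq')] at h1
            rw [← sh_sh t q, h1, sh_sh]
          · refine ⟨sh t (el (PA T) z), sh_valid hC.flow (el_valid _ z), ?_⟩
            show idx (PA T) (sh t (sh t (el (PA T) z))) = z
            rw [sh_sh, idx_el]
        obtain ⟨f, h1, h2⟩ := hCI.toIso
        have hfx : ∀ x, el (PA T) (f x) = sh t (el (PA T) x) := by
          intro x
          rw [h2, el_idx (sh_valid hC.flow (el_valid _ _))]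
        refine ⟨⟨f, f.surjective, ?_, ?_⟩, ?_⟩
        · refine (p_eq (c_fst c_id) (c_snd c_id)).of_eq fun q => ?_
          exact f.injective.eq_iff.symm
        · exact (as_comp hpa true).of_eq fun q => h1 _ _ _
        · show _ = deg (img f _)
          rw [rf_congr hfx]
          exact ((degF hDeg hUP hC htB hBt A hC.flow).2 rfl).symm

end Pool.Agent.H552R8.DS
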