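import Mathlib
import Pool.Agent.H552R8.DS.Stubs

set_option autoImplicit false

namespace Pool.Agent.H552R8.DS

open Pool.Agent.Helper941 Pool.Agent.Helper941.Dim Pool.Agent.Helper941.IsoProb
open Pool.Agent.Helper743 (TR RecT)

/-- the disjoint union of two systems on the natural numbers, with the first part named:
`2 x` is the element `x` of the first part and `2 x + 1` is the element `x` of the second -/
def SP (S1 S2 : ℕ → ℕ → ℕ → Prop) (i x y : ℕ) : Prop :=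
  (i = 0 ∧ x = y ∧ x % 2 = 0) ∨
  (i % 2 = 1 ∧ x % 2 = 0 ∧ y % 2 = 0 ∧ S1 (i / 2) (x / 2) (y / 2)) ∨
  (i % 2 = 0 ∧ 1 ≤ i ∧ x % 2 = 1 ∧ y % 2 = 1 ∧ S2 (i / 2 - 1) (x / 2) (y / 2))

/-- the union of two relations -/
def RP (R1 R2 : ℕ → ℕ → Prop) (x y : ℕ) : Prop :=
  (x % 2 = 0 ∧ y % 2 = 0 ∧ R1 (x / 2) (y / 2)) ∨ (x % 2 = 1 ∧ y % 2 = 1 ∧ R2 (x / 2) (y / 2))

def StPR1 : Prop := ∀ (S1 S2 : ℕ → ℕ → ℕ → Prop) (R1 R2 : ℕ → ℕ → Prop) (c1 : Constr S1)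
  (c2 : Constr S2), ∃ c : Constr (SP S1 S2),
    TR (img c.nu (RP R1 R2)) (Pool.Agent.Helper743.join (img c1.nu R1) (img c2.nu R2)) ∧
    TR (img c1.nu R1) (img c.nu (RP R1 R2)) ∧ TR (img c2.nu R2) (img c.nu (RP R1 R2))

def StPR2 : Prop := ∀ (S1 S2 : ℕ → ℕ → ℕ → Prop) (R1 R2 : ℕ → ℕ → Prop)
  (c : Constr (SP S1 S2)), ∃ (c1 : Constr S1) (c2 : Constr S2),
    TR (img c.nu (RP R1 R2)) (Pool.Agent.Helper743.join (img c1.nu R1) (img c2.nu R2)) ∧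
    TR (img c1.nu R1) (img c.nu (RP R1 R2)) ∧ TR (img c2.nu R2) (img c.nu (RP R1 R2))

/-- one element spectra -/
def StBase : Prop := ∀ A : ℕ → Prop, ∃ (S : ℕ → ℕ → ℕ → Prop) (R : ℕ → ℕ → Prop),
  Nonempty (Constr S) ∧ DgSp S R = {deg (ch A)}

def StLub : Prop := ∀ f g : ℕ → ℕ,
  IsLUB ({deg f, deg g} : Set TuringDegree) (deg (Pool.Agent.Helper743.join f g))

end Pool.Agent.H552R8.DS
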