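import Mathlib
import Pool.Agent.H552R8.DS.Stubs2
import Pool.Agent.H552R8.DS.Final

set_option autoImplicit false

namespace Pool.Agent.H552R8.DS

open Pool.Agent.Helper941 Pool.Agent.Helper941.Dim Pool.Agent.Helper941.IsoProb
open Pool.Agent.Helper743 (TR RecT TR_iff TR_join)

theorem lub_eq {x y z : TuringDegree} (h : IsLUB ({x, y} : Set TuringDegree) z) (hxy : x ≤ y) :
    z = y := by
  refine le_antisymm (h.2 ?_) (h.1 (by simp))
  intro w hw
  rcases hw with rfl | hw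
  · exact hxy
  · rw [Set.mem_singleton_iff.1 hw]

theorem two (hM : StMain) (hPR1 : StPR1) (hPR2 : StPR2) (hBase : StBase) (hLub : StLub)
    (A : ℕ → Prop) (L : Set TuringDegree) (hfin : L.Finite)
    (hA : deg (ch A) ∈ L)
    (hL : ∀ d ∈ L, d = deg (ch A) ∨ ∃ (n : ℕ) (B : ℕ → Prop), 3 ≤ n ∧ Sigma0 n B ∧
      (∀ S : ℕ → Prop, Sigma0 (n - 1) S →
        TuringReducible (fun z => Part.some (ch S z)) (fun z => Part.some (ch B z))) ∧
      d = deg (fun z => Nat.pair (ch A z) (ch B z)))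
    (hsup : ∀ d₁ ∈ L, ∀ d₂ ∈ L, ∀ d, IsLUB {d₁, d₂} d → d ∈ L) :
    ∃ (S : ℕ → ℕ → ℕ → Prop) (R : ℕ → ℕ → Prop), Nonempty (Constr S) ∧ DgSp S R = L := by
  have hle : ∀ d ∈ L, deg (ch A) ≤ d := by
    intro d hd
    rcases hL d hd with h | ⟨n, B, _, _, _, h⟩
    · rw [h]
    · rw [h]
      exact (hLub (ch A) (ch B)).1 (by simp)
  have key : ∀ l : List TuringDegree, (∀ d ∈ l, d ∈ L) →
      ∃ (S : ℕ → ℕ → ℕ → Prop) (R : ℕ → ℕ → Prop), Nonempty (Constr S) ∧ DgSp S R ⊆ L ∧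
        deg (ch A) ∈ DgSp S R ∧ ∀ d ∈ l, d ∈ DgSp S R := by
    intro l
    induction l with
    | nil =>
      intro _
      obtain ⟨S, R, h1, h2⟩ := hBase A
      refine ⟨S, R, h1, ?_, ?_, fun d hd => by simp at hd⟩
      · rw [h2]
        intro x hx
        rw [Set.mem_singleton_iff.1 hx]
        exact hA
      · rw [h2]; rfl
    | cons d l ih =>
      intro hl
      obtain ⟨S1, R1, hn1, hs1, ha1, hm1⟩ := ih fun x hx => hl x (List.mem_cons_of_mem _ hx)
      rcases hL d (hl d List.mem_cons_self) with h | ⟨n, B, hn, hB, hlow, h⟩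
      · refine ⟨S1, R1, hn1, hs1, ha1, fun x hx => ?_⟩
        rcases List.mem_cons.1 hx with rfl | hx
        · rw [h]; exact ha1
        · exact hm1 x hx
      · obtain ⟨S2, R2, hn2, h2⟩ := hM n hn B hB (fun S hS => TR_iff.2 (hlow S hS)) A
        have h2' : DgSp S2 R2 = {deg (ch A), d} := by rw [h2, h]; rfl
        have hdL : d ∈ L := hl d List.mem_cons_self
        have hmk : ∀ x ∈ DgSp S1 R1, ∀ y ∈ DgSp S2 R2, ∃ z ∈ DgSp (SP S1 S2) (RP R1 R2),
            IsLUB {x, y} z := by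
          rintro x ⟨c1, rfl⟩ y ⟨c2, rfl⟩
          obtain ⟨c, e1, e2, e3⟩ := hPR1 S1 S2 R1 R2 c1 c2
          refine ⟨_, ⟨c, rfl⟩, ?_⟩
          rw [deg_eq e1 (TR_join e2 e3)]
          exact hLub _ _
        refine ⟨SP S1 S2, RP R1 R2, ?_, ?_, ?_, ?_⟩
        · obtain ⟨c1⟩ := hn1
          obtain ⟨c2⟩ := hn2
          obtain ⟨c, _⟩ := hPR1 S1 S2 R1 R2 c1 c2
          exact ⟨c⟩
        · rintro x ⟨c, rfl⟩
          obtain ⟨c1, c2, e1, e2, e3⟩ := hPR2 S1 S2 R1 R2 c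
          rw [deg_eq e1 (TR_join e2 e3)]
          refine hsup _ (hs1 ⟨c1, rfl⟩) _ ?_ _ (hLub _ _)
          have : deg (img c2.nu R2) ∈ DgSp S2 R2 := ⟨c2, rfl⟩
          rw [h2'] at this
          rcases this with h3 | h3
          · rw [h3]; exact hA
          · rw [Set.mem_singleton_iff.1 h3]; exact hdL
        · obtain ⟨z, hz, hz2⟩ := hmk _ ha1 (deg (ch A)) (by rw [h2']; left; rfl)
          rwa [lub_eq hz2 (le_refl _)] at hz
        · intro x hx
          rcases List.mem_cons.1 hx with rfl | hx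
          · obtain ⟨z, hz, hz2⟩ := hmk _ ha1 x (by rw [h2']; right; rfl)
            rwa [lub_eq hz2 (hle x hdL)] at hz
          · obtain ⟨z, hz, hz2⟩ := hmk _ (hm1 x hx) (deg (ch A)) (by rw [h2']; left; rfl)
            rw [Set.pair_comm] at hz2
            rwa [lub_eq hz2 (hle x (hl x (List.mem_cons_of_mem _ hx)))] at hz
  obtain ⟨S, R, h1, h2, _, h4⟩ := key hfin.toFinset.toList fun d hd => by simpa using hd
  refine ⟨S, R, h1, Set.Subset.antisymm h2 fun d hd => h4 d (by simpa using hd)⟩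

end Pool.Agent.H552R8.DS
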