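import Pool.Agent.H552R8.DS.Stubs

/-! Task INF (helper225): infinite chains are chains of true nodes. -/

set_option autoImplicit false

namespace Pool.Agent.H552R8.DS.INF_b

open Pool.Agent.Helper941 Pool.Agent.Helper941.Dim Pool.Agent.Helper941.IsoProb
open Pool.Agent.H552R8.DS

theorem main : StInf := by
  intro T p t vi hU hC a ha0 hp k
  set d := con T prn with hd
  have hS : Spec T prn d := con_spec T prn
  have hT := hU.th
  have hp' : ∀ k, 1 ≤ a (k + 1) ∧ d.pa (a (k + 1)) = a k := hp
  have hJ : ∀ k, d.J (a (k + 1)) ≠ 0 := by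
    intro k hc
    obtain ⟨h2, h3⟩ := hp' (k + 1)
    by_cases h4 : d.J (a (k + 1 + 1)) = 0
    · have h5 := hS.leaf h2 h4
      have := (hp' k).1
      omega
    · obtain ⟨j, hj⟩ : ∃ j, d.J (a (k + 1 + 1)) = j + 1 :=
        ⟨d.J (a (k + 1 + 1)) - 1, by omega⟩
      obtain ⟨_, _, _, h5, _⟩ := hS.child hT h2 hj
      have := h5.1
      rw [h3, hc] at this
      omega
  have hJ' : ∀ k, d.J (a k) ≠ 0 := by
    intro k
    cases k with
    | zero => rw [ha0, hS.zero.1]; omega
    | succ k => exact hJ k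
  have hc : ∀ k, 1 ≤ d.J (a (k + 1)) - 1 ∧ T (d.J (a (k + 1)) - 1) ∧
      prn (d.J (a (k + 1)) - 1) = d.J (a k) - 1 ∧ a k < a (k + 1) ∧
      agr d (a k) (a (k + 1)) (d.J (a k) - 1) ∧ live d (a k) (a (k + 1)) := by
    intro k
    have h2 := hJ k
    obtain ⟨h3, h4, h6, h5, _⟩ := hS.child hT (hp' k).1
      (show d.J (a (k + 1)) = (d.J (a (k + 1)) - 1) + 1 by omega)
    rw [(hp' k).2] at h5 h6
    obtain ⟨h7, h8, h9⟩ := h5
    have e : prn (d.J (a (k + 1)) - 1) = d.J (a k) - 1 := by omega
    rw [e] at h8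
    exact ⟨h3, h4, e, h6, h8, h9⟩
  have hl0 : d.J (a 0) - 1 = 0 := by rw [ha0, hS.zero.1]
  have hlab : ∀ k, d.J (a k) - 1 = nod p k :=
    hU.uniq (fun k => d.J (a k) - 1) hl0 (fun k => (hc k).1) (fun k => (hc k).2.2.1) (fun k => by
      cases k with
      | zero =>
        show T (d.J (a 0) - 1)
        rw [hl0]
        exact hT.zero
      | succ k => exact (hc k).2.1)
  have hnm : ∀ k m, k ≤ m → nod p k ≤ nod p m := by
    intro k m hkm
    induction m, hkm using Nat.le_induction with
    | base => exact le_refl _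
    | succ m _ ih =>
      have h1 := prn_lt (nod_pos p m)
      rw [prn_nod] at h1
      omega
  have ham : StrictMono a := strictMono_nat_of_lt_succ fun k => (hc k).2.2.2.1
  have key : ∀ k m, k + 1 ≤ m → agr d (a k) (a m) (d.J (a k) - 1) ∧ live d (a k) (a m) := by
    intro k m hkm
    induction m, hkm using Nat.le_induction with
    | base => exact (hc k).2.2.2.2
    | succ m hm ih =>
      obtain ⟨g1, g2⟩ := (hc m).2.2.2.2
      have hle : d.J (a k) - 1 ≤ d.J (a m) - 1 := by
        rw [hlab k, hlab m]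
        exact hnm k m (by omega)
      refine ⟨ih.1.trans (g1.mono hle), ?_⟩
      intro s' hs' hlt hl
      by_cases h5 : s' ≤ a m
      · exact ih.2 s' (by omega) hlt hl
      · exact g2 s' hs' (by omega) ((hl.congr ih.1).mono hle)
  have hPN : PN d (a k) := by
    constructor
    · intro s hs hl
      have h1 := key k (max (k + 1) s) (le_max_left _ _)
      have h2 : s ≤ a (max (k + 1) s) := (le_max_right _ _).trans ham.le_apply
      exact h1.2 s (by omega) hs hl
    · intro N
      have h1 := key k (max (k + 1) N) (le_max_left _ _)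
      exact ⟨a (max (k + 1) N), (le_max_right _ _).trans ham.le_apply, h1.1⟩
  have hChn : Chn T p (a k) := by
    refine ⟨hJ' k, ?_, hPN⟩
    show d.J (a k) - 1 = nod p (len (d.J (a k) - 1))
    rw [hlab k, len_nod]
  obtain ⟨i, hi⟩ := (hC.chn (a k)).1 hChn
  have h1 : d.J (vi i) = nod p i + 1 := hC.lab i
  rw [← hi] at h1
  have h2 := hlab k
  have h3 : nod p i = nod p k := by omega
  have h4 : i = k := by rw [← len_nod p i, h3, len_nod]
  rw [hi, h4]

end Pool.Agent.H552R8.DS.INF_b
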