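import Pool.Agent.H552R8.DS.Stubs

set_option autoImplicit false

namespace Pool.Agent.H552R8.DS.ISO

open Pool.Agent.Helper941 Pool.Agent.Helper941.Dim Pool.Agent.Helper941.IsoProb
open Pool.Agent.Helper743 (TR RecT)
open Pool.Agent.H552R8.DS

theorem main : StIso := by
  intro T p t vi hU hC b c f hf
  set pa := PA T with hpadef
  let F : ℕ → ℕ := fun v => (el pa (f (idx pa (Nat.pair v 0)))).unpair.2
  have hrel : ∀ i p q, Valid pa p → Valid pa q → (Rel pa b i p q ↔
      Rel pa c i (el pa (f (idx pa p))) (el pa (f (idx pa q)))) := by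
    intro i p q hp hq
    have := hf i (idx pa p) (idx pa q)
    unfold As at this
    rw [el_idx hp, el_idx hq] at this
    exact this
  have hel : ∀ v, el pa (f (idx pa (Nat.pair v 0))) = Nat.pair v (F v) := by
    intro v
    have h1 := (hrel (Nat.pair 1 v) _ _ (valid_base _ v) (valid_base _ v)).1
      (rel_one.2 ⟨rfl, by rw [Nat.unpair_pair]⟩)
    refine unpair_inj ?_ ?_
    · rw [Nat.unpair_pair]; exact (rel_one.1 h1).2
    · rw [Nat.unpair_pair]
  have hval : ∀ v, Valid pa (Nat.pair v (F v)) := fun v => by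
    rw [← hel]; exact el_valid _ _
  have hF : Flow pa F := by
    constructor
    · intro v u hu
      have := hval v u
      rw [Nat.unpair_pair] at this
      exact this hu
    · intro u hu
      have h1 := (hrel (Nat.pair 3 u) (Nat.pair (pa u) 0) (Nat.pair u 0)
        (valid_base _ _) (valid_base _ _)).1 (rel_three.2 (by
          rw [Nat.unpair_pair, Nat.unpair_pair]
          exact ⟨hu, rfl, rfl, by rw [Nat.zero_testBit]; rfl⟩))
      rw [hel, hel] at h1
      have h2 := (rel_three.1 h1).2.2.2
      rw [Nat.unpair_pair, Nat.unpair_pair] at h2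
      exact h2
  -- general elements
  have hgen : ∀ q, Valid pa q → ∀ u, el pa (f (idx pa (Nat.pair q.unpair.1
      (q.unpair.2 % 2 ^ u)))) = Nat.pair q.unpair.1 ((q.unpair.2 % 2 ^ u) ^^^ F q.unpair.1) := by
    intro q hq u
    have hvu : ∀ w, Valid pa (Nat.pair q.unpair.1 (q.unpair.2 % 2 ^ w)) := by
      intro w x hx
      rw [Nat.unpair_pair] at hx ⊢
      rw [Nat.testBit_mod_two_pow] at hx
      simp only [Bool.and_eq_true, decide_eq_true_eq] at hx
      exact hq x hx.2
    induction u with
    | zero =>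
      have h1 : q.unpair.2 % 2 ^ 0 = 0 := by simp [Nat.mod_one]
      rw [h1, hel, Nat.zero_xor]
    | succ u ih =>
      by_cases h2 : q.unpair.2.testBit u = true
      · obtain ⟨h3, h4⟩ := hq u h2
        have h5 := (hrel (Nat.pair 2 u) _ _ (hvu u) (hvu (u + 1))).1 (rel_two.2 (by
          rw [Nat.unpair_pair, Nat.unpair_pair]
          refine ⟨h3, h4.symm, h4.symm, ?_⟩
          rw [low_succ, if_pos h2]))
        rw [ih] at h5
        obtain ⟨_, _, h6, h7⟩ := rel_two.1 h5
        refine unpair_inj ?_ ?_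
        · rw [h6, Nat.unpair_pair]
          exact h4
        · rw [h7, Nat.unpair_pair, Nat.unpair_pair, low_succ, if_pos h2]
          show (q.unpair.2 % 2 ^ u ^^^ F q.unpair.1) ^^^ 2 ^ u =
            (q.unpair.2 % 2 ^ u ^^^ 2 ^ u) ^^^ F q.unpair.1
          rw [Nat.xor_assoc, Nat.xor_comm (F q.unpair.1), ← Nat.xor_assoc]
      · rw [low_succ, if_neg h2]
        exact ih
  have hgen' : ∀ q, Valid pa q → el pa (f (idx pa q)) = sh F q := by
    intro q hq
    have h1 := hgen q hq q.unpair.2
    rw [Nat.mod_eq_of_lt Nat.lt_two_pow_self, Nat.pair_unpair] at h1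
    exact h1
  refine ⟨F, hF, ?_, fun x => ?_⟩
  · -- the parity
    obtain ⟨X, hX, hXp⟩ : ∃ X, Valid pa (Nat.pair 0 X) ∧ par X = b := by
      cases b with
      | false => exact ⟨0, valid_base _ _, par_zero⟩
      | true =>
        refine ⟨2 ^ vi 1, ?_, par_two_pow _⟩
        intro u hu
        rw [Nat.unpair_pair] at hu ⊢
        rw [Nat.testBit_two_pow] at hu
        have hu' : vi 1 = u := by simpa using hu
        subst hu'
        have h1 : (t 0).testBit (vi 1) = true := by
          have h2 := hC.one 0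
          rw [hC.zero] at h2
          rw [h2, Nat.testBit_two_pow]
          simp
        exact hC.flow.child 0 (vi 1) h1
    have h1 := (hrel 0 (Nat.pair 0 X) (Nat.pair 0 X) hX hX).1
      (rel_zero.2 (by rw [Nat.unpair_pair]; exact ⟨rfl, rfl, hXp⟩))
    rw [hgen' _ hX] at h1
    have h2 := (rel_zero.1 h1).2.2
    rw [sh_snd, Nat.unpair_pair] at h2
    have h3 : par (X ^^^ F 0) = c := h2
    rw [par_xor, hXp] at h3
    rw [← h3]
    cases b <;> cases par (F 0) <;> rfl
  · have h1 := hgen' (el pa x) (el_valid _ _)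
    rw [idx_el] at h1
    exact h1

end Pool.Agent.H552R8.DS.ISO
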