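import Pool.Agent.H552R8.DS.Stubs2

set_option autoImplicit false

namespace Pool.Agent.H552R8.DS.LUB

open Pool.Agent.Helper743 (TR RecT)

theorem le_iff' (f : ℕ → ℕ) (h : ℕ →. ℕ) :
    deg f ≤ toAntisymmetrization TuringReducible h ↔ TuringReducible (f : ℕ →. ℕ) h := Iff.rfl

theorem main : StLub := by
  intro f g
  constructor
  · intro d hd
    rcases hd with rfl | hd
    · exact (le_iff' _ _).2 (Pool.Agent.Helper743.TR_iff.1 (Pool.Agent.Helper743.TR_join_left f g))
    · rw [Set.mem_singleton_iff] at hd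
      subst hd
      exact (le_iff' _ _).2 (Pool.Agent.Helper743.TR_iff.1 (Pool.Agent.Helper743.TR_join_right f g))
  · intro d hd
    obtain ⟨h, rfl⟩ : ∃ h : ℕ →. ℕ, toAntisymmetrization TuringReducible h = d :=
      Quotient.exists_rep d
    have h1 : TuringReducible (f : ℕ →. ℕ) h := (le_iff' _ _).1 (hd (Or.inl rfl))
    have h2 : TuringReducible (g : ℕ →. ℕ) h := (le_iff' _ _).1 (hd (Or.inr rfl))
    have e1 : ∀ k : ℕ → ℕ, TuringReducible (k : ℕ →. ℕ) h ↔ RecT {h} k := by
      intro k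
      unfold RecT TuringReducible
      rw [RecursiveIn.iff_nat]
      rfl
    exact (le_iff' _ _).2 ((e1 _).2 (RecT.pair ((e1 _).1 h1) ((e1 _).1 h2)))

end Pool.Agent.H552R8.DS.LUB
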