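import Pool.Agent.H552R8.DS.Stubs

set_option autoImplicit false

namespace Pool.Agent.H552R8.DS.RIG

open Pool.Agent.Helper941 Pool.Agent.Helper941.Dim Pool.Agent.Helper941.IsoProb
open Pool.Agent.Helper743 (TR RecT)
open Pool.Agent.H552R8.DS

theorem chain_ext {pa : ℕ → ℕ} (hpa : ∀ u, 1 ≤ u → pa u < u) (u : ℕ) :
    ∀ b : ℕ → ℕ, b 0 = u → (∀ k, 1 ≤ b (k + 1) ∧ pa (b (k + 1)) = b k) →
    ∃ (a : ℕ → ℕ) (m : ℕ), a 0 = 0 ∧ (∀ k, 1 ≤ a (k + 1) ∧ pa (a (k + 1)) = a k) ∧
      ∀ k, a (m + k) = b k := by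
  induction u using Nat.strong_induction_on with
  | _ u ih =>
    intro b hb hc
    rcases Nat.eq_zero_or_pos u with h0 | h0
    · exact ⟨b, 0, by rw [hb, h0], hc, fun k => by rw [Nat.zero_add]⟩
    · obtain ⟨a, m, h1, h2, h3⟩ := ih (pa u) (hpa u h0)
        (fun k => if k = 0 then pa u else b (k - 1)) (by simp) (by
          intro k
          rcases k with _ | k
          · show 1 ≤ b 0 ∧ pa (b 0) = pa u
            rw [hb]
            exact ⟨h0, rfl⟩
          · exact hc k)
      refine ⟨a, m + 1, h1, h2, fun k => ?_⟩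
      have := h3 (k + 1)
      rw [show m + 1 + k = m + (k + 1) by ring, this]
      simp

/-- odd nodes lie on the chain -/
theorem odd_mem {pa : ℕ → ℕ} (hpa : ∀ u, 1 ≤ u → pa u < u) {vi : ℕ → ℕ}
    (H : ∀ a : ℕ → ℕ, a 0 = 0 → (∀ k, 1 ≤ a (k + 1) ∧ pa (a (k + 1)) = a k) → ∀ k, a k = vi k)
    {G : ℕ → ℕ} (hG : Flow pa G) {u : ℕ} (hu : par (G u) = true) : ∃ m, u = vi m := by
  have hnx : ∀ v, ∃ w, par (G v) = true → (G v).testBit w = true := by
    intro v
    by_cases h : par (G v) = true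
    · obtain ⟨w, hw⟩ := exists_of_par h
      exact ⟨w, fun _ => hw⟩
    · exact ⟨0, fun h' => (h h').elim⟩
  choose nx hnx using hnx
  have hodd : ∀ v w, (G v).testBit w = true → par (G w) = true := by
    intro v w hw
    obtain ⟨h1, h2⟩ := hG.child v w hw
    rw [← hG.par w h1, h2, hw]
  have hit : ∀ k, par (G (nx^[k] u)) = true := by
    intro k
    induction k with
    | zero => exact hu
    | succ k ih =>
      rw [Function.iterate_succ_apply']
      exact hodd _ _ (hnx _ ih)
  obtain ⟨a, m, h1, h2, h3⟩ := chain_ext hpa u (fun k => nx^[k] u) rfl (by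
    intro k
    have h := hG.child _ _ (hnx _ (hit k))
    show 1 ≤ nx^[k + 1] u ∧ pa (nx^[k + 1] u) = nx^[k] u
    rw [Function.iterate_succ_apply']
    exact h)
  refine ⟨m, ?_⟩
  rw [← H a h1 h2 m]
  have := h3 0
  exact this.symm

/-- the even case -/
theorem even_case {pa : ℕ → ℕ} (hpa : ∀ u, 1 ≤ u → pa u < u) {vi : ℕ → ℕ}
    (H : ∀ a : ℕ → ℕ, a 0 = 0 → (∀ k, 1 ≤ a (k + 1) ∧ pa (a (k + 1)) = a k) → ∀ k, a k = vi k)
    (h0 : vi 0 = 0) (h1 : ∀ i, 1 ≤ vi (i + 1) ∧ pa (vi (i + 1)) = vi i)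
    (hinj : Function.Injective vi)
    {G : ℕ → ℕ} (hG : Flow pa G) (hp : par (G 0) = false) (v : ℕ) : G v = 0 := by
  have hbit : ∀ v u, (G v).testBit u = true → ∃ m, v = vi m ∧ u = vi (m + 1) := by
    intro v u hu
    obtain ⟨h2, h3⟩ := hG.child v u hu
    have h4 : par (G u) = true := by rw [← hG.par u h2, h3, hu]
    obtain ⟨m, hm⟩ := odd_mem hpa H hG h4
    rcases m with _ | m
    · rw [h0] at hm; omega
    · refine ⟨m, ?_, hm⟩
      rw [← h3, hm, (h1 m).2]
  have htwo : ∀ m, G (vi m) ≠ 0 → par (G (vi m)) = true := by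
    intro m hm
    have : ∃ u, (G (vi m)).testBit u = true := by
      by_contra hc
      push Not at hc
      exact hm (eq_zero_of fun u => by simpa using hc u)
    obtain ⟨u, hu⟩ := this
    obtain ⟨m1, h2, h3⟩ := hbit _ _ hu
    have h4 := hinj h2
    subst h4
    have h5 : G (vi m) = 2 ^ vi (m + 1) := by
      refine eq_two_pow_of (by rw [← h3]; exact hu) fun w hw => ?_
      obtain ⟨m2, h6, h7⟩ := hbit _ _ hw
      have h8 := hinj h6
      subst h8
      exact h7
    rw [h5, par_two_pow]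
  have hz : ∀ m, G (vi m) = 0 := by
    intro m
    induction m with
    | zero =>
      by_contra hc
      have := htwo 0 hc
      rw [h0, hp] at this
      exact Bool.noConfusion this
    | succ m ih =>
      by_contra hc
      have h2 := htwo (m + 1) hc
      rw [← hG.par _ (h1 m).1, (h1 m).2, ih, Nat.zero_testBit] at h2
      exact Bool.noConfusion h2
  refine eq_zero_of fun u => ?_
  by_contra hc
  have hc' : (G v).testBit u = true := by simpa using hc
  obtain ⟨m, h2, _⟩ := hbit _ _ hc'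
  rw [h2, hz m, Nat.zero_testBit] at hc'
  exact Bool.noConfusion hc'

theorem flow_xor {pa F t : ℕ → ℕ} (hF : Flow pa F) (ht : Flow pa t) :
    Flow pa fun v => F v ^^^ t v := by
  constructor
  · intro v u hu
    rw [Nat.testBit_xor] at hu
    by_cases h1 : (F v).testBit u = true
    · exact hF.child v u h1
    · simp only [Bool.not_eq_true] at h1
      rw [h1] at hu
      exact ht.child v u (by simpa using hu)
  · intro u hu
    show (F (pa u) ^^^ t (pa u)).testBit u = par (F u ^^^ t u)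
    rw [Nat.testBit_xor, par_xor, hF.par u hu, ht.par u hu]

theorem main : StRig := by
  intro T p t vi hT hC H F hF
  have hS : Spec T prn (con T prn) := con_spec T prn
  have hpa : ∀ u, 1 ≤ u → PA T u < u := fun u hu => hS.pa_lt hT.th hu
  have h1 : ∀ i, 1 ≤ vi (i + 1) ∧ PA T (vi (i + 1)) = vi i := by
    intro i
    apply hC.flow.child
    rw [hC.one i, Nat.testBit_two_pow]
    simp
  have hinj : Function.Injective vi := by
    intro i j hij
    have h2 := hC.lab i
    rw [hij, hC.lab j] at h2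
    have h3 : nod p j = nod p i := by omega
    rw [← len_nod p i, ← len_nod p j, h3]
  refine ⟨fun h => even_case hpa H hC.zero h1 hinj hF h, fun h => ?_⟩
  have h2 : par (t 0) = true := by
    have h3 := hC.one 0
    rw [hC.zero] at h3
    rw [h3, par_two_pow]
  have h4 := even_case hpa H hC.zero h1 hinj (flow_xor hF hC.flow)
    (by show par (F 0 ^^^ t 0) = false
        rw [par_xor, h, h2]; rfl)
  funext v
  exact Nat.xor_eq_zero_iff.1 (h4 v)

end Pool.Agent.H552R8.DS.RIG
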