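import Pool.Agent.H552R8.DS.Stubs

set_option autoImplicit false

namespace Pool.Agent.H552R8.DS.TB1

open Pool.Agent.Helper941 Pool.Agent.Helper941.Dim Pool.Agent.Helper941.IsoProb
open Pool.Agent.Helper743 (TR RecT)
open Pool.Agent.H552R8.DS

theorem ch_one {P : ℕ → Prop} {n : ℕ} : ch P n = 1 ↔ P n := by
  classical
  unfold ch
  by_cases h : P n <;> simp [h]

theorem ch_zero {P : ℕ → Prop} {n : ℕ} : ch P n = 0 ↔ ¬ P n := by
  classical
  unfold ch
  by_cases h : P n <;> simp [h]

theorem u1 : Primrec (fun z : ℕ => z.unpair.1) := Primrec.fst.comp Primrec.unpair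
theorem u2 : Primrec (fun z : ℕ => z.unpair.2) := Primrec.snd.comp Primrec.unpair

/-- the final case distinction -/
def G (K e z : ℕ) : ℕ :=
  if z.unpair.1.unpair.1 ≤ K then z.unpair.2.unpair.1
  else if z.unpair.1.unpair.1 = K + 1 ∧ z.unpair.1.unpair.2.unpair.1 = e ∧
    z.unpair.2.unpair.2.unpair.1 = 1 then z.unpair.2.unpair.2.unpair.2 + 1 else 0

/-- the test function -/
def H (K e z : ℕ) : ℕ :=
  if z.unpair.1.unpair.1.unpair.1 = K + 1 ∧ z.unpair.1.unpair.1.unpair.2.unpair.1 = e ∧
    z.unpair.2.unpair.1 = 1 then z.unpair.2.unpair.2 else 0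

theorem pG (K e : ℕ) : Primrec (G K e) := by
  unfold G
  have i1 : Primrec (fun z : ℕ => z.unpair.1.unpair.1) := u1.comp u1
  have i21 : Primrec (fun z : ℕ => z.unpair.1.unpair.2.unpair.1) := u1.comp (u2.comp u1)
  have a : Primrec (fun z : ℕ => z.unpair.2.unpair.1) := u1.comp u2
  have b : Primrec (fun z : ℕ => z.unpair.2.unpair.2.unpair.1) := u1.comp (u2.comp u2)
  have m : Primrec (fun z : ℕ => z.unpair.2.unpair.2.unpair.2) := u2.comp (u2.comp u2)
  exact Primrec.ite (Primrec.nat_le.comp i1 (Primrec.const K)) a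
    (Primrec.ite ((Primrec.eq.comp i1 (Primrec.const (K + 1))).and
      ((Primrec.eq.comp i21 (Primrec.const e)).and (Primrec.eq.comp b (Primrec.const 1))))
      (Primrec.succ.comp m) (Primrec.const 0))

theorem pH (K e : ℕ) : Primrec (H K e) := by
  unfold H
  have i1 : Primrec (fun z : ℕ => z.unpair.1.unpair.1.unpair.1) := u1.comp (u1.comp u1)
  have i21 : Primrec (fun z : ℕ => z.unpair.1.unpair.1.unpair.2.unpair.1) :=
    u1.comp (u2.comp (u1.comp u1))
  have b : Primrec (fun z : ℕ => z.unpair.2.unpair.1) := u1.comp u2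
  have v : Primrec (fun z : ℕ => z.unpair.2.unpair.2) := u2.comp u2
  exact Primrec.ite ((Primrec.eq.comp i1 (Primrec.const (K + 1))).and
      ((Primrec.eq.comp i21 (Primrec.const e)).and (Primrec.eq.comp b (Primrec.const 1))))
      v (Primrec.const 0)

theorem rt {O : Set (ℕ →. ℕ)} {f : ℕ → ℕ} (hf : Primrec f) : RecT O f :=
  Pool.Agent.Helper743.Computable.recT hf.to_comp

theorem find_congr {P : ℕ → Prop} [DecidablePred P] (h : ∃ n, P n) {m : ℕ} (h1 : P m)
    (h2 : ∀ k < m, ¬ P k) : Nat.find h = m := (Nat.find_eq_iff h).2 ⟨h1, h2⟩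

/-- the path is computable from the `Sigma_(K+1)` sets -/
theorem pth_TR (K : ℕ) (c : ℕ → ℕ) (h1 : ∀ S : ℕ → Prop, Sigma0 (K + 1) S → TR (ch S) c) :
    TR (pth K) c := by
  have hS : Sigma0 (K + 1) fun z : ℕ => ¬ (pth K z.unpair.1 = z.unpair.2) := by
    have h := pi_pth K
    have h2 : Pi0 (K + 1) fun z : ℕ => pth K z.unpair.1 = z.unpair.2 :=
      Pi0.comp h (f := fun z : ℕ => (z.unpair.1, z.unpair.2)) (u1.pair u2).to_comp
    exact h2
  have hT := h1 _ hS
  have hex : ∀ a, ∃ n, ch (fun z : ℕ => ¬ (pth K z.unpair.1 = z.unpair.2)) (Nat.pair a n) = 0 := by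
    intro a
    refine ⟨pth K a, ?_⟩
    rw [ch_zero]
    simp
  have hf := RecT.find hT hex
  have e : (fun a => Nat.find (hex a)) = pth K := by
    funext a
    refine find_congr (hex a) ?_ ?_
    · rw [ch_zero]; simp
    · intro k hk
      rw [ch_zero]
      simp only [Nat.unpair_pair, not_not]
      omega
  rw [e] at hf
  exact hf

theorem main : StTB1 := by
  classical
  intro K B hB
  obtain ⟨e, he⟩ := Un_universal (K + 1) hB
  have hfk : ∀ x, B x ↔ fk (K + 1) (Nat.pair e x) ≠ 0 := fun x => by rw [fk_un]; exact he x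
  refine ⟨e, ?_, ?_⟩
  · -- `ch B` from the path
    have hp : Primrec (fun x : ℕ => Nat.pair (K + 1) (Nat.pair e x)) :=
      Primrec₂.natPair.comp (Primrec.const (K + 1))
        (Primrec₂.natPair.comp (Primrec.const e) Primrec.id)
    have hs : Primrec (fun z : ℕ => if z = 0 then 0 else 1) :=
      Primrec.ite (Primrec.eq.comp Primrec.id (Primrec.const 0)) (Primrec.const 0)
        (Primrec.const 1)
    have h := (rt (O := {((pB K e : ℕ → ℕ) : ℕ →. ℕ)}) hs).comp
      ((TR.refl (pB K e)).comp (rt hp))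
    have heq : (fun n => (fun z : ℕ => if z = 0 then 0 else 1)
        (pB K e ((fun x : ℕ => Nat.pair (K + 1) (Nat.pair e x)) n))) = ch B := by
      funext x
      have h1 : pB K e (Nat.pair (K + 1) (Nat.pair e x)) = fk (K + 1) (Nat.pair e x) := by
        unfold pB
        rw [if_pos]
        · simp
        · right; simp
      simp only
      rw [h1]
      by_cases hb : B x
      · rw [if_neg ((hfk x).1 hb)]
        exact (ch_one.2 hb).symm
      · have : fk (K + 1) (Nat.pair e x) = 0 := by
          by_contra hc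
          exact hb ((hfk x).2 hc)
        rw [if_pos this]
        exact (ch_zero.2 hb).symm
    rw [heq] at h
    exact h
  · intro c h1 h2
    have hpth : RecT {(c : ℕ →. ℕ)} (pth K) := pth_TR K c h1
    have hch : RecT {(c : ℕ →. ℕ)} (ch B) := h2
    have c122 : Primrec (fun z : ℕ => z.unpair.1.unpair.2.unpair.2) := u2.comp (u2.comp u1)
    have cq : Primrec (fun z : ℕ => Nat.pair K (Nat.pair z.unpair.1.unpair.2.unpair.1
        (Nat.pair z.unpair.1.unpair.2.unpair.2 z.unpair.2))) :=
      Primrec₂.natPair.comp (Primrec.const K) (Primrec₂.natPair.comp (u1.comp (u2.comp u1))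
        (Primrec₂.natPair.comp c122 u2))
    have hp := (rt (O := {(c : ℕ →. ℕ)}) (pH K e)).comp (RecT.pair (rt Primrec.id)
      (RecT.pair (hch.comp (rt c122)) (hpth.comp (rt cq))))
    set p : ℕ → ℕ := fun n => H K e (Nat.pair (id n) (Nat.pair (ch B n.unpair.1.unpair.2.unpair.2)
      (pth K (Nat.pair K (Nat.pair n.unpair.1.unpair.2.unpair.1
        (Nat.pair n.unpair.1.unpair.2.unpair.2 n.unpair.2)))))) with hpdef
    have hpv : ∀ i y, p (Nat.pair i y) =
        if i.unpair.1 = K + 1 ∧ i.unpair.2.unpair.1 = e ∧ ch B i.unpair.2.unpair.2 = 1 then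
          pth K (Nat.pair K (Nat.pair i.unpair.2.unpair.1 (Nat.pair i.unpair.2.unpair.2 y)))
        else 0 := by
      intro i y
      simp only [hpdef, H, id, Nat.unpair_pair]
    have hfkv : ∀ i : ℕ, i.unpair.2.unpair.1 = e → ∀ y,
        (pth K (Nat.pair K (Nat.pair i.unpair.2.unpair.1 (Nat.pair i.unpair.2.unpair.2 y))) = 0 ↔
          fk K (Nat.pair i.unpair.2.unpair.1 (Nat.pair i.unpair.2.unpair.2 y)) = 0) := by
      intro i _ y
      rw [pth_pair le_rfl]
    have hex : ∀ i, ∃ y, p (Nat.pair i y) = 0 := by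
      intro i
      by_cases hc : i.unpair.1 = K + 1 ∧ i.unpair.2.unpair.1 = e ∧ ch B i.unpair.2.unpair.2 = 1
      · have hb : B i.unpair.2.unpair.2 := ch_one.1 hc.2.2
        have h3 := (hfk _).1 hb
        rw [fk_succ, LS_ne] at h3
        obtain ⟨y, hy⟩ := h3
        simp only [Nat.unpair_pair] at hy
        refine ⟨y, ?_⟩
        rw [hpv, if_pos hc, hfkv i hc.2.1 y, hc.2.1]
        exact hy
      · exact ⟨0, by rw [hpv, if_neg hc]⟩
    have hfind := RecT.find hp hex
    have hfin := (rt (O := {(c : ℕ →. ℕ)}) (pG K e)).comp (RecT.pair (rt Primrec.id)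
      (RecT.pair hpth (RecT.pair (hch.comp (rt (u2.comp u2))) hfind)))
    have heq : (fun n => G K e (Nat.pair (id n) (Nat.pair (pth K n)
        (Nat.pair (ch B n.unpair.2.unpair.2) (Nat.find (hex n)))))) = pB K e := by
      funext i
      simp only [G, id, Nat.unpair_pair]
      unfold pB
      by_cases h3 : i.unpair.1 ≤ K
      · rw [if_pos h3, if_pos (show act K e i from Or.inl h3)]
        unfold pth
        rw [if_pos h3]
      · rw [if_neg h3]
        by_cases hc : i.unpair.1 = K + 1 ∧ i.unpair.2.unpair.1 = e ∧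
            ch B i.unpair.2.unpair.2 = 1
        · rw [if_pos hc, if_pos (show act K e i from Or.inr ⟨hc.1, hc.2.1⟩), hc.1, fk_succ]
          refine (LS_iff.2 ⟨fun y _ hy => ?_, fun y hy => ?_⟩).symm
          · have hy' : y = Nat.find (hex i) := by omega
            have h4 := Nat.find_spec (hex i)
            rw [← hy', hpv, if_pos hc, hfkv i hc.2.1] at h4
            exact h4
          · have hy' : y < Nat.find (hex i) := by omega
            have h4 := Nat.find_min (hex i) hy'
            rw [hpv, if_pos hc, hfkv i hc.2.1] at h4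
            exact h4
        · rw [if_neg hc]
          by_cases ha : act K e i
          · rw [if_pos ha]
            rcases ha with ha | ha
            · exact absurd ha h3
            · have hnb : ¬ B i.unpair.2.unpair.2 := fun hb => hc ⟨ha.1, ha.2, ch_one.2 hb⟩
              have h5 : fk (K + 1) (Nat.pair e i.unpair.2.unpair.2) = 0 := by
                by_contra hcc
                exact hnb ((hfk _).2 hcc)
              rw [ha.1]
              have h6 : i.unpair.2 = Nat.pair e i.unpair.2.unpair.2 := by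
                rw [← ha.2, Nat.pair_unpair]
              rw [h6, h5]
          · rw [if_neg ha]
    rw [heq] at hfin
    exact hfin

end Pool.Agent.H552R8.DS.TB1
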