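import Pool.Agent.H552R8.DS.Stubs

set_option autoImplicit false

namespace Pool.Agent.H552R8.DS.TLOW_b

open Pool.Agent.Helper941 Pool.Agent.Helper941.Dim Pool.Agent.Helper941.IsoProb
open Pool.Agent.Helper743 (TR RecT)
open Pool.Agent.H552R8.DS

/-- indicator of equality -/
def eqv (a b : ℕ) : ℕ := 1 - ((a - b) + (b - a))

theorem eqv_eq (a b : ℕ) : eqv a b = if a = b then 1 else 0 := by
  unfold eqv
  split_ifs <;> omega

theorem ch_pos {P : ℕ → Prop} {n : ℕ} (h : P n) : ch P n = 1 := by
  unfold ch
  rw [if_pos h]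

theorem ch_neg {P : ℕ → Prop} {n : ℕ} (h : ¬ P n) : ch P n = 0 := by
  unfold ch
  rw [if_neg h]

theorem k_sub {α : Type} [Primcodable α] {f g : α → ℕ} (hf : Computable f) (hg : Computable g) :
    Computable fun a => f a - g a := Primrec.nat_sub.to_comp.comp hf hg

theorem k_add {α : Type} [Primcodable α] {f g : α → ℕ} (hf : Computable f) (hg : Computable g) :
    Computable fun a => f a + g a := Primrec.nat_add.to_comp.comp hf hg

theorem k_mul {α : Type} [Primcodable α] {f g : α → ℕ} (hf : Computable f) (hg : Computable g) :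
    Computable fun a => f a * g a := Primrec.nat_mul.to_comp.comp hf hg

theorem k_eqv {α : Type} [Primcodable α] {f g : α → ℕ} (hf : Computable f) (hg : Computable g) :
    Computable fun a => eqv (f a) (g a) :=
  k_sub (Computable.const 1) (k_add (k_sub hf hg) (k_sub hg hf))

theorem k_1 {α : Type} [Primcodable α] {f : α → ℕ} (hf : Computable f) :
    Computable fun a => (f a).unpair.1 := Computable.fst.comp (Computable.unpair.comp hf)

theorem k_2 {α : Type} [Primcodable α] {f : α → ℕ} (hf : Computable f) :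
    Computable fun a => (f a).unpair.2 := Computable.snd.comp (Computable.unpair.comp hf)

theorem comp1 {O : Set (ℕ →. ℕ)} {G f : ℕ → ℕ} (hG : Computable G) (hf : RecT O f) :
    RecT O fun n => G (f n) :=
  Pool.Agent.Helper743.RecT.comp (Pool.Agent.Helper743.Computable.recT hG) hf

/-- the nodes on the path are computable from the path -/
theorem nod_rec {O : Set (ℕ →. ℕ)} {p : ℕ → ℕ} (hp : RecT O p) :
    RecT O fun n => nod p n := by
  have hrev : Computable fun z : ℕ =>
      Encodable.encode (((Encodable.decode (α := List ℕ) z).getD []).reverse) :=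
    Computable.encode.comp (Primrec.list_reverse.to_comp.comp
      (Computable.option_getD Computable.decode (Computable.const [])))
  have h := comp1 hrev (Pool.Agent.Helper743.recT_pre hp)
  have e : (fun n => nod p n) = fun n => Encodable.encode (((Encodable.decode (α := List ℕ)
      (Encodable.encode (Pool.Agent.Helper743.pre p n))).getD []).reverse) := by
    funext n
    rw [Encodable.encodek]
    rfl
  rw [e]
  exact h

theorem chn_rec {T : ℕ → Prop} {p : ℕ → ℕ} (hT : ComputablePred T) {c : ℕ → ℕ}
    (hp : TR p c) (hS : ∀ S : ℕ → Prop, Sigma0 2 S → TR (ch S) c) : TR (ch (Chn T p)) c := by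
  have hJ : Computable fun v : ℕ => (con T prn).J v := con_J hT c_prn Computable.id
  have hJ1 : Computable fun v : ℕ => (con T prn).J v - 1 := k_sub hJ (Computable.const 1)
  have hlen : Computable fun v : ℕ => len ((con T prn).J v - 1) := c_lenj hJ1
  have h1 : TR (fun v => nod p (len ((con T prn).J v - 1))) c :=
    Pool.Agent.Helper743.RecT.comp (nod_rec hp) (Pool.Agent.Helper743.Computable.recT hlen)
  have h2 : TR (ch fun v => ¬ PN (con T prn) v) c := hS _ (Pi0.not (pi_PN hT c_prn))
  have h3 : TR (fun v => Nat.pair v (Nat.pair (nod p (len ((con T prn).J v - 1)))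
      (ch (fun v => ¬ PN (con T prn) v) v))) c :=
    Pool.Agent.Helper743.RecT.pair (Pool.Agent.Helper743.Computable.recT Computable.id)
      (Pool.Agent.Helper743.RecT.pair h1 h2)
  have hG : Computable fun z : ℕ => (1 - eqv ((con T prn).J z.unpair.1) 0) *
      (eqv ((con T prn).J z.unpair.1 - 1) z.unpair.2.unpair.1 * (1 - z.unpair.2.unpair.2)) := by
    have e1 : Computable fun z : ℕ => z.unpair.1 := k_1 Computable.id
    have e2 : Computable fun z : ℕ => z.unpair.2 := k_2 Computable.id
    exact k_mul (k_sub (Computable.const 1) (k_eqv (hJ.comp e1) (Computable.const 0)))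
      (k_mul (k_eqv (hJ1.comp e1) (k_1 e2)) (k_sub (Computable.const 1) (k_2 e2)))
  have h4 := comp1 hG h3
  have e : ch (Chn T p) = fun v => (fun z : ℕ => (1 - eqv ((con T prn).J z.unpair.1) 0) *
      (eqv ((con T prn).J z.unpair.1 - 1) z.unpair.2.unpair.1 * (1 - z.unpair.2.unpair.2)))
      (Nat.pair v (Nat.pair (nod p (len ((con T prn).J v - 1)))
      (ch (fun v => ¬ PN (con T prn) v) v))) := by
    funext v
    simp only [Nat.unpair_pair]
    by_cases a1 : (con T prn).J v = 0
    · rw [ch_neg (fun h : Chn T p v => h.1 a1), a1, eqv_eq, if_pos rfl]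
      simp
    · by_cases a2 : (con T prn).J v - 1 = nod p (len ((con T prn).J v - 1))
      · by_cases a3 : PN (con T prn) v
        · have a4 : Chn T p v := ⟨a1, a2, a3⟩
          rw [ch_pos a4, eqv_eq, if_neg a1, eqv_eq, if_pos a2,
            ch_neg (P := fun v => ¬ PN (con T prn) v) (not_not.2 a3)]
        · rw [ch_neg (fun h : Chn T p v => a3 h.2.2), eqv_eq, if_neg a1, eqv_eq, if_pos a2,
            ch_pos (P := fun v => ¬ PN (con T prn) v) a3]
      · rw [ch_neg (fun h : Chn T p v => a2 h.2.1), eqv_eq, if_neg a1, eqv_eq, if_neg a2]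
        simp
  rw [e]
  exact h4

theorem main : StTlow := by
  intro T p t vi hU hC c hp hS
  have hD : TR (ch (Chn T p)) c := chn_rec hU.comp hp hS
  have hPA : Computable (PA T) := con_pa hU.comp c_prn
  have hinj : ∀ i m, vi i = vi m → i = m := by
    intro i m h
    have h1 := hC.lab i
    have h2 := hC.lab m
    rw [h, h2] at h1
    have h3 : nod p m = nod p i := by omega
    have h4 := congrArg len h3
    rw [len_nod, len_nod] at h4
    exact h4.symm
  have hnext : ∀ i, 1 ≤ vi (i + 1) ∧ PA T (vi (i + 1)) = vi i := by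
    intro i
    apply hC.flow.child
    rw [hC.one i]
    exact two_pow_bit.2 rfl
  -- the search predicate
  set q : ℕ → ℕ := fun z => ch (Chn T p) z.unpair.1 *
    (1 - (1 - (1 - z.unpair.2)) * (eqv (PA T z.unpair.2) z.unpair.1 *
      ch (Chn T p) z.unpair.2)) with hq
  have hqr : RecT {(c : ℕ →. ℕ)} q := by
    have e1 : Computable fun z : ℕ => z.unpair.1 := k_1 Computable.id
    have e2 : Computable fun z : ℕ => z.unpair.2 := k_2 Computable.id
    have h1 : RecT {(c : ℕ →. ℕ)} fun z => ch (Chn T p) z.unpair.1 :=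
      Pool.Agent.Helper743.RecT.comp hD (Pool.Agent.Helper743.Computable.recT e1)
    have h2 : RecT {(c : ℕ →. ℕ)} fun z => ch (Chn T p) z.unpair.2 :=
      Pool.Agent.Helper743.RecT.comp hD (Pool.Agent.Helper743.Computable.recT e2)
    have h3 := Pool.Agent.Helper743.RecT.pair
      (Pool.Agent.Helper743.Computable.recT (O := {(c : ℕ →. ℕ)}) Computable.id)
      (Pool.Agent.Helper743.RecT.pair h1 h2)
    have hG : Computable fun z : ℕ => z.unpair.2.unpair.1 *
        (1 - (1 - (1 - z.unpair.1.unpair.2)) * (eqv (PA T z.unpair.1.unpair.2)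
          z.unpair.1.unpair.1 * z.unpair.2.unpair.2)) :=
      k_mul (k_1 e2) (k_sub (Computable.const 1) (k_mul (k_sub (Computable.const 1)
        (k_sub (Computable.const 1) (k_2 e1))) (k_mul (k_eqv (hPA.comp (k_2 e1)) (k_1 e1))
          (k_2 e2))))
    have h4 := comp1 hG h3
    simpa only [Nat.unpair_pair, id] using h4
  have hq0 : ∀ v u, q (Nat.pair v u) = 0 ↔
      (¬ Chn T p v ∨ (1 ≤ u ∧ PA T u = v ∧ Chn T p u)) := by
    intro v u
    simp only [hq, Nat.unpair_pair, eqv_eq, ch]
    by_cases a1 : Chn T p v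
    · by_cases a2 : 1 ≤ u
      · by_cases a3 : PA T u = v
        · by_cases a4 : Chn T p u
          · have : 1 - (1 - u) = 1 := by omega
            simp [a1, a2, a3, a4, this]
          · simp [a1, a2, a3, a4]
        · simp [a1, a2, a3]
      · have : u = 0 := by omega
        simp [a1, this]
    · simp [a1]
  have hex : ∀ a, ∃ n, q (Nat.pair a n) = 0 := by
    intro a
    by_cases ha : Chn T p a
    · obtain ⟨i, rfl⟩ := (hC.chn a).1 ha
      exact ⟨vi (i + 1), (hq0 _ _).2 (Or.inr ⟨(hnext i).1, (hnext i).2, (hC.chn _).2 ⟨i + 1, rfl⟩⟩)⟩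
    · exact ⟨0, (hq0 _ _).2 (Or.inl ha)⟩
  have hf := Pool.Agent.Helper743.RecT.find hqr hex
  have hfin := Pool.Agent.Helper743.RecT.pair hD hf
  have hG : Computable fun z : ℕ => z.unpair.1 * 2 ^ z.unpair.2 :=
    k_mul (k_1 Computable.id) (c_pow (k_2 Computable.id))
  have h5 := comp1 hG hfin
  simp only [Nat.unpair_pair] at h5
  have e : t = fun a => ch (Chn T p) a * 2 ^ Nat.find (hex a) := by
    funext a
    by_cases ha : Chn T p a
    · obtain ⟨i, hi⟩ := (hC.chn a).1 ha
      have h6 := (hq0 _ _).1 (Nat.find_spec (hex a))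
      rcases h6 with h6 | ⟨h6, h7, h8⟩
      · exact absurd ha h6
      · obtain ⟨m, hm⟩ := (hC.chn _).1 h8
        have hm0 : m ≠ 0 := by
          rintro rfl
          rw [hm, hC.zero] at h6
          omega
        obtain ⟨m', rfl⟩ := Nat.exists_eq_succ_of_ne_zero hm0
        rw [hm] at h7
        have h9 : vi m' = a := by
          rw [← (hnext m').2]
          exact h7
        have h10 : m' = i := hinj _ _ (by rw [h9, hi])
        simp only [ch, if_pos ha, one_mul]
        rw [hm, hi, hC.one i, ← h10]
    · simp only [ch, if_neg ha, zero_mul]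
      apply hC.off
      intro i h
      exact ha ((hC.chn a).2 ⟨i, h⟩)
  unfold TR
  rw [e]
  exact h5

end Pool.Agent.H552R8.DS.TLOW_b
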