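import Pool.Agent.H552R8.DS.Stubs

set_option autoImplicit false

namespace Pool.Agent.H552R8.DS.TREE

open Encodable Denumerable Nat.Partrec
open Pool.Agent.Helper941 Pool.Agent.Helper941.Dim Pool.Agent.Helper941.IsoProb
open Pool.Agent.Helper941.Zeta
open Pool.Agent.Helper743 (TR RecT)
open Pool.Agent.H552R8.DS

theorem mono {K e : ℕ} {g g' : ℕ → ℕ} {l l' i : ℕ} (h : LocB K e g l i) (hl : l' ≤ l)
    (hg : ∀ i < l', g i = g' i) (hi : i < l') : LocB K e g' l' i := by
  obtain ⟨h1, h2⟩ := h
  have hk : ∀ {k q y}, kn l' k q y → kn l k q y := by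
    intro k q y h
    rcases h with h | h
    · exact Or.inl h
    · exact Or.inr (by omega)
  rw [hg i hi] at h1 h2
  refine ⟨h1, fun hK => ⟨fun y hy h3 h4 => ?_, fun y hy h3 h4 => ?_⟩⟩
  · exact (tst_congr hg h4).1 ((h2 hK).1 y hy h3 (hk h4))
  · exact fun hc => (h2 hK).2 y (by omega) h3 (hk h4) ((tst_congr hg h4).2 hc)

theorem tb_up (K e : ℕ) {j : ℕ} (hj : 1 ≤ j) (h : TB K e j) : TB K e (prn j) := by
  intro i hi
  have h1 := len_prn hj
  exact mono (h i (by omega)) (by omega) (fun i hi => (dig_prn hj hi).symm) hi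

theorem tb_zero (K e : ℕ) : TB K e 0 := by
  intro i hi
  unfold len at hi
  rw [seq_zero] at hi
  simp at hi

theorem th_TB (K e : ℕ) : TH (TB K e) prn where
  zero := tb_zero K e
  up := fun _ hj h => tb_up K e hj h
  lt := fun _ hj => prn_lt hj

theorem p_act (K e : ℕ) {α : Type} [Primcodable α] {i : α → ℕ} (hi : Computable i) :
    ComputablePred fun a => act K e (i a) := by
  unfold act
  exact p_or (p_le (c_up1 hi) (c_const K))
    (p_and (p_eq (c_up1 hi) (c_const (K + 1))) (p_eq (c_up1 (c_up2 hi)) (c_const e)))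

theorem p_TB (K e : ℕ) : ComputablePred (TB K e) := by
  unfold TB LocB
  have hj : Computable fun p : ℕ × ℕ => p.1 := c_fst c_id
  have hi : Computable fun p : ℕ × ℕ => p.2 := c_snd c_id
  have h1 := p_loc1 hj hi
  have h2 := p_loc2 hj hi
  exact p_ball (c_lenj c_id) (p_and (p_imp (p_not (p_act K e hi))
    (p_eq (c_dig hj hi) (c_const 0))) (p_imp (p_act K e hi) (p_and h1 h2)))

theorem act_prev {K e k q q' : ℕ} (h : act K e (Nat.pair (k + 1) q)) :
    act K e (Nat.pair k q') := by
  unfold act at h ⊢
  rw [Nat.unpair_pair] at h ⊢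
  left
  show k ≤ K
  rcases h with h | h
  · have : k + 1 ≤ K := h
    omega
  · have : k + 1 = K + 1 := h.1
    omega

theorem pB_pair {K e k q : ℕ} (h : act K e (Nat.pair k q)) : pB K e (Nat.pair k q) = fk k q := by
  unfold pB
  rw [if_pos h, Nat.unpair_pair]

theorem fk_tstB {K e k : ℕ} (q : ℕ) (hk : act K e (Nat.pair k q)) :
    fk k q = LS (tst (pB K e) k q) := by
  cases k with
  | zero =>
    show LS _ = _
    refine LS_congr fun y => ?_
    unfold tst
    simp
  | succ k =>
    show LS _ = _
    refine LS_congr fun y => ?_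
    unfold tst
    rw [Nat.add_sub_cancel, pB_pair (act_prev hk)]
    simp

theorem pB_loc (K e l i : ℕ) : LocB K e (pB K e) l i := by
  unfold LocB
  constructor
  · intro h
    unfold pB
    rw [if_neg h]
  · intro h
    have h1 : pB K e i = fk i.unpair.1 i.unpair.2 := by unfold pB; rw [if_pos h]
    rw [fk_tstB (K := K) (e := e) i.unpair.2 (by rw [Nat.pair_unpair]; exact h)] at h1
    obtain ⟨h2, h3⟩ := LS_iff.1 h1.symm
    exact ⟨fun y hy h4 _ => h2 y hy h4, fun y _ h4 _ => h3 y h4⟩

theorem pB_T (K e i : ℕ) : TB K e (nod (pB K e) i) := by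
  intro m hm
  rw [len_nod] at hm ⊢
  exact mono (pB_loc K e i m) (le_refl i) (fun x hx => (dig_nod (pB K e) hx).symm) hm

theorem pB_unique {K e : ℕ} {g : ℕ → ℕ} (h : ∀ l, ∀ i < l, LocB K e g l i) (i : ℕ) :
    g i = pB K e i := by
  have key : ∀ k q, g (Nat.pair k q) = pB K e (Nat.pair k q) := by
    intro k
    induction k using Nat.strong_induction_on with
    | _ k ih =>
      intro q
      by_cases hk : act K e (Nat.pair k q)
      · rw [pB_pair hk, fk_tstB q hk, eq_comm, LS_iff]
        have htst : ∀ y, tst (pB K e) k q y ↔ tst g k q y := by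
          intro y
          unfold tst
          refine and_congr Iff.rfl ?_
          refine forall_congr' fun h1 => ?_
          rw [ih (k - 1) (by omega)]
        have hloc : ∀ y, ∃ l, Nat.pair k q < l ∧ y < l ∧ kn l k q y := by
          intro y
          refine ⟨Nat.pair k q + y + 1 +
            Nat.pair (k - 1) (Nat.pair q.unpair.1 (Nat.pair q.unpair.2 y)), by omega, by omega,
            Or.inr (by omega)⟩
        refine ⟨fun y hy h1 => ?_, fun y h1 => ?_⟩
        · obtain ⟨l, h2, h3, h4⟩ := hloc y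
          have h5 := (h l _ h2).2 hk
          rw [Nat.unpair_pair] at h5
          exact (htst y).2 (h5.1 y hy h1 h4)
        · obtain ⟨l, h2, h3, h4⟩ := hloc y
          have h5 := (h l _ h2).2 hk
          rw [Nat.unpair_pair] at h5
          exact fun hc => h5.2 y (by omega) h1 h4 ((htst y).1 hc)
      · have h1 := (h (Nat.pair k q + 1) (Nat.pair k q) (by omega)).1
        rw [h1 hk]
        unfold pB
        rw [if_neg hk]
  have := key i.unpair.1 i.unpair.2
  rwa [Nat.pair_unpair] at this

theorem path_uniq {K e : ℕ} {l : ℕ → ℕ} (h0 : l 0 = 0) (h1 : ∀ k, 1 ≤ l (k + 1))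
    (h2 : ∀ k, prn (l (k + 1)) = l k) (h3 : ∀ k, TB K e (l k)) (k : ℕ) :
    l k = nod (pB K e) k := by
  have hlen : ∀ k, len (l k) = k := by
    intro k
    induction k with
    | zero => rw [h0]; unfold len; rw [seq_zero]; rfl
    | succ k ih => rw [← len_prn (h1 k), h2, ih]
  have hd : ∀ m i, i < m → dig (l m) i = dig (l (i + 1)) i := by
    intro m
    induction m with
    | zero => intro i hi; omega
    | succ m ih =>
      intro i hi
      by_cases h4 : i = m
      · rw [h4]
      · have h5 : i < len (prn (l (m + 1))) := by rw [h2, hlen]; omega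
        rw [← dig_prn (h1 m) h5, h2]
        exact ih i (by omega)
  have hg : ∀ i, dig (l (i + 1)) i = pB K e i := by
    refine pB_unique (g := fun i => dig (l (i + 1)) i) fun m i hi => ?_
    have h4 := h3 m i (by rw [hlen]; exact hi)
    rw [hlen] at h4
    exact mono h4 (le_refl m) (fun x hx => hd m x hx) hi
  have := nod_ext (f := pB K e) (j := l k) fun i hi => by
    rw [hlen] at hi
    rw [hd k i hi, hg]
  rw [hlen] at this
  exact this

theorem main : StTree := fun K e =>
  { comp := p_TB K e
    th := th_TB K e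
    mem := fun i => pB_T K e i
    uniq := fun l h0 h1 h2 h3 k => path_uniq h0 h1 h2 h3 k }

end Pool.Agent.H552R8.DS.TREE
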