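import Pool.Agent.H552R8.DS.Stubs

set_option autoImplicit false

namespace Pool.Agent.H552R8.DS.TUP_b

open Pool.Agent.Helper941 Pool.Agent.Helper941.Dim Pool.Agent.Helper941.IsoProb
open Pool.Agent.Helper743 (TR RecT)
open Pool.Agent.Helper941.Zeta
open Pool.Agent.H552R8.DS

theorem u1 : Computable fun z : ℕ => z.unpair.1 := Computable.fst.comp Computable.unpair

theorem u2 : Computable fun z : ℕ => z.unpair.2 := Computable.snd.comp Computable.unpair

/-- the search predicate for the binary logarithm -/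
def pl (z : ℕ) : ℕ := z.unpair.1 - 2 ^ z.unpair.2

theorem pl_c : Computable pl := c_sub u1 (c_pow u2)

theorem pl_ex (a : ℕ) : ∃ n, pl (Nat.pair a n) = 0 := by
  refine ⟨a, ?_⟩
  unfold pl
  rw [Nat.unpair_pair]
  have : a < 2 ^ a := Nat.lt_two_pow_self
  show a - 2 ^ a = 0
  omega

theorem find_pow (m : ℕ) : Nat.find (pl_ex (2 ^ m)) = m := by
  rw [Nat.find_eq_iff]
  constructor
  · unfold pl
    rw [Nat.unpair_pair]
    show 2 ^ m - 2 ^ m = 0
    omega
  · intro n hn
    unfold pl
    rw [Nat.unpair_pair]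
    show ¬ (2 ^ m - 2 ^ n = 0)
    have : 2 ^ n < 2 ^ m := Nat.pow_lt_pow_right (by norm_num) hn
    omega

/-- the binary logarithm of a power of two -/
def L (a : ℕ) : ℕ := Nat.find (pl_ex a)

theorem L_pow (m : ℕ) : L (2 ^ m) = m := find_pow m

theorem vi_rec {T : ℕ → Prop} {p t vi : ℕ → ℕ} (h : Ch2 T p t vi) : TR vi t := by
  have hL : RecT {(t : ℕ →. ℕ)} L :=
    RecT.find (Pool.Agent.Helper743.Computable.recT pl_c) pl_ex
  have hz : Computable fun z : ℕ => z.unpair.2.unpair.2 := u2.comp u2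
  have hH : RecT {(t : ℕ →. ℕ)} (fun z => L (t (z.unpair.2.unpair.2))) :=
    hL.comp ((TR.refl t).comp (Pool.Agent.Helper743.Computable.recT hz))
  have h0 : RecT {(t : ℕ →. ℕ)} (fun _ => 0) :=
    Pool.Agent.Helper743.Computable.recT (Computable.const 0)
  have hp := RecT.prec h0 hH
  have hi : Computable fun i : ℕ => Nat.pair 0 i :=
    Primrec₂.natPair.to_comp.comp (Computable.const 0) Computable.id
  have hq := hp.comp (Pool.Agent.Helper743.Computable.recT hi)
  have e : (fun n => (fun p : ℕ => (Nat.rec ((fun _ => 0) p.unpair.1)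
      (fun y ih => (fun z : ℕ => L (t (z.unpair.2.unpair.2)))
        (Nat.pair p.unpair.1 (Nat.pair y ih))) p.unpair.2 : ℕ)) (Nat.pair 0 n)) = vi := by
    funext n
    simp only [Nat.unpair_pair]
    induction n with
    | zero => exact h.zero.symm
    | succ n ih =>
      simp only [ih]
      rw [h.one n, L_pow]
  show RecT {(t : ℕ →. ℕ)} vi
  rw [← e]
  exact hq

theorem main : StTup := by
  intro T p t vi hU h
  have hv := vi_rec h
  have hc : Computable fun z : ℕ => dig ((con T prn).J z.unpair.1 - 1) z.unpair.2 :=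
    c_dig (c_sub (con_J hU.comp c_prn u1) (c_const 1)) u2
  have h1 : RecT {(t : ℕ →. ℕ)} (fun i => vi (i + 1)) :=
    RecT.comp hv (Pool.Agent.Helper743.Computable.recT Computable.succ)
  have h2 : RecT {(t : ℕ →. ℕ)} (fun i => i) :=
    Pool.Agent.Helper743.Computable.recT Computable.id
  have h3 := (Pool.Agent.Helper743.Computable.recT (O := {(t : ℕ →. ℕ)}) hc).comp
    (RecT.pair h1 h2)
  have e : (fun n => (fun z : ℕ => dig ((con T prn).J z.unpair.1 - 1) z.unpair.2)
      (Nat.pair (vi (n + 1)) n)) = p := by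
    funext n
    simp only [Nat.unpair_pair]
    rw [h.lab (n + 1), Nat.add_sub_cancel]
    exact dig_nod p (Nat.lt_succ_self n)
  show RecT {(t : ℕ →. ℕ)} p
  rw [← e]
  exact h3

end Pool.Agent.H552R8.DS.TUP_b
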