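import Mathlib
import Pool.Agent.H552R8.DS.Final
import Pool.Agent.H552R8.DS.FLOW
import Pool.Agent.H552R8.DS.INF_b
import Pool.Agent.H552R8.DS.RIG
import Pool.Agent.H552R8.DS.ISO
import Pool.Agent.H552R8.DS.BIJ_b
import Pool.Agent.H552R8.DS.DEG_b
import Pool.Agent.H552R8.DS.TUP_b
import Pool.Agent.H552R8.DS.TLOW_b
import Pool.Agent.H552R8.DS.TREE_b
import Pool.Agent.H552R8.DS.TB1

set_option autoImplicit false

namespace Pool.Agent.H552R8.DS

theorem one : StMain :=
  main FLOW.main INF_b.main RIG.main ISO.main BIJ_b.main DEG.main TUP_b.main TLOW_b.main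
    TREE.main TB1.main

end Pool.Agent.H552R8.DS
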