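import Pool.Agent.H552R8.DS.Stubs2

set_option autoImplicit false

namespace Pool.Agent.H552R8.DS.PR1_c

open Pool.Agent.H552R8.DS
open Pool.Agent.Helper941 Pool.Agent.Helper941.Dim Pool.Agent.Helper941.IsoProb
open Pool.Agent.Helper941.Zeta
open Pool.Agent.Helper743 (TR RecT)

/-- the numbering of the union -/
def nuc (n1 n2 : ℕ → ℕ) (z : ℕ) : ℕ := if z % 2 = 0 then 2 * n1 (z / 2) else 2 * n2 (z / 2) + 1

theorem nuc_mod (n1 n2 : ℕ → ℕ) (z : ℕ) : nuc n1 n2 z % 2 = z % 2 := by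
  unfold nuc; split_ifs <;> omega

theorem nuc_div0 (n1 n2 : ℕ → ℕ) {z : ℕ} (h : z % 2 = 0) : nuc n1 n2 z / 2 = n1 (z / 2) := by
  unfold nuc; rw [if_pos h]; omega

theorem nuc_div1 (n1 n2 : ℕ → ℕ) {z : ℕ} (h : z % 2 = 1) : nuc n1 n2 z / 2 = n2 (z / 2) := by
  unfold nuc; rw [if_neg (by omega)]; omega

theorem eq_iff (n1 n2 : ℕ → ℕ) (a b : ℕ) : nuc n1 n2 a = nuc n1 n2 b ↔
    (a % 2 = 0 ∧ b % 2 = 0 ∧ n1 (a / 2) = n1 (b / 2)) ∨
    (a % 2 = 1 ∧ b % 2 = 1 ∧ n2 (a / 2) = n2 (b / 2)) := by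
  have ha := nuc_mod n1 n2 a
  have hb := nuc_mod n1 n2 b
  constructor
  · intro h
    have h3 : a % 2 = b % 2 := by rw [← ha, ← hb, h]
    rcases Nat.mod_two_eq_zero_or_one a with h1 | h1
    · left
      have h2 : b % 2 = 0 := by omega
      refine ⟨h1, h2, ?_⟩
      rw [← nuc_div0 n1 n2 h1, ← nuc_div0 n1 n2 h2, h]
    · right
      have h2 : b % 2 = 1 := by omega
      refine ⟨h1, h2, ?_⟩
      rw [← nuc_div1 n1 n2 h1, ← nuc_div1 n1 n2 h2, h]
  · rintro (⟨h1, h2, h3⟩ | ⟨h1, h2, h3⟩)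
    · unfold nuc; rw [if_pos h1, if_pos h2, h3]
    · unfold nuc; rw [if_neg (by omega), if_neg (by omega), h3]

theorem eq_comp' {n1 n2 : ℕ → ℕ} (h1 : ComputablePred fun p : ℕ × ℕ => n1 p.1 = n1 p.2)
    (h2 : ComputablePred fun p : ℕ × ℕ => n2 p.1 = n2 p.2) :
    ComputablePred fun p : ℕ × ℕ => nuc n1 n2 p.1 = nuc n1 n2 p.2 := by
  have e : (fun p : ℕ × ℕ => nuc n1 n2 p.1 = nuc n1 n2 p.2) = fun p : ℕ × ℕ =>
      (p.1 % 2 = 0 ∧ p.2 % 2 = 0 ∧ n1 (p.1 / 2) = n1 (p.2 / 2)) ∨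
      (p.1 % 2 = 1 ∧ p.2 % 2 = 1 ∧ n2 (p.1 / 2) = n2 (p.2 / 2)) :=
    funext fun p => propext (eq_iff n1 n2 p.1 p.2)
  rw [e]
  have m1 : Computable fun p : ℕ × ℕ => p.1 % 2 := c_mod2 Computable.fst
  have m2 : Computable fun p : ℕ × ℕ => p.2 % 2 := c_mod2 Computable.snd
  have hd : Computable fun p : ℕ × ℕ => (p.1 / 2, p.2 / 2) :=
    (c_div2 Computable.fst).pair (c_div2 Computable.snd)
  exact p_or (p_and (p_eq m1 (Computable.const 0)) (p_and (p_eq m2 (Computable.const 0))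
    (computablePred_comp h1 hd))) (p_and (p_eq m1 (Computable.const 1))
    (p_and (p_eq m2 (Computable.const 1)) (computablePred_comp h2 hd)))

theorem rel_iff (S1 S2 : ℕ → ℕ → ℕ → Prop) (n1 n2 : ℕ → ℕ) (i a b : ℕ) :
    SP S1 S2 i (nuc n1 n2 a) (nuc n1 n2 b) ↔
    (i = 0 ∧ nuc n1 n2 a = nuc n1 n2 b ∧ a % 2 = 0) ∨
    (i % 2 = 1 ∧ a % 2 = 0 ∧ b % 2 = 0 ∧ S1 (i / 2) (n1 (a / 2)) (n1 (b / 2))) ∨
    (i % 2 = 0 ∧ 1 ≤ i ∧ a % 2 = 1 ∧ b % 2 = 1 ∧ S2 (i / 2 - 1) (n2 (a / 2)) (n2 (b / 2))) := by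
  unfold SP
  rw [nuc_mod, nuc_mod]
  constructor
  · rintro (h | ⟨h1, h2, h3, h4⟩ | ⟨h1, h2, h3, h4, h5⟩)
    · exact Or.inl h
    · rw [nuc_div0 n1 n2 h2, nuc_div0 n1 n2 h3] at h4
      exact Or.inr (Or.inl ⟨h1, h2, h3, h4⟩)
    · rw [nuc_div1 n1 n2 h3, nuc_div1 n1 n2 h4] at h5
      exact Or.inr (Or.inr ⟨h1, h2, h3, h4, h5⟩)
  · rintro (h | ⟨h1, h2, h3, h4⟩ | ⟨h1, h2, h3, h4, h5⟩)
    · exact Or.inl h
    · rw [← nuc_div0 n1 n2 h2, ← nuc_div0 n1 n2 h3] at h4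
      exact Or.inr (Or.inl ⟨h1, h2, h3, h4⟩)
    · rw [← nuc_div1 n1 n2 h3, ← nuc_div1 n1 n2 h4] at h5
      exact Or.inr (Or.inr ⟨h1, h2, h3, h4, h5⟩)

/-- the constructivization of the union -/
def con (S1 S2 : ℕ → ℕ → ℕ → Prop) (c1 : Constr S1) (c2 : Constr S2) : Constr (SP S1 S2) where
  nu := nuc c1.nu c2.nu
  surj := by
    intro y
    rcases Nat.mod_two_eq_zero_or_one y with h | h
    · obtain ⟨a, ha⟩ := c1.surj (y / 2)
      refine ⟨2 * a, ?_⟩
      unfold nuc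
      rw [if_pos (by omega)]
      have : 2 * a / 2 = a := by omega
      rw [this, ha]
      omega
    · obtain ⟨a, ha⟩ := c2.surj (y / 2)
      refine ⟨2 * a + 1, ?_⟩
      unfold nuc
      rw [if_neg (by omega)]
      have : (2 * a + 1) / 2 = a := by omega
      rw [this, ha]
      omega
  eq_comp := eq_comp' c1.eq_comp c2.eq_comp
  rel_comp := by
    have e : (fun q : ℕ × ℕ × ℕ => SP S1 S2 q.1 (nuc c1.nu c2.nu q.2.1) (nuc c1.nu c2.nu q.2.2)) =
        fun q : ℕ × ℕ × ℕ =>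
        (q.1 = 0 ∧ nuc c1.nu c2.nu q.2.1 = nuc c1.nu c2.nu q.2.2 ∧ q.2.1 % 2 = 0) ∨
        (q.1 % 2 = 1 ∧ q.2.1 % 2 = 0 ∧ q.2.2 % 2 = 0 ∧
          S1 (q.1 / 2) (c1.nu (q.2.1 / 2)) (c1.nu (q.2.2 / 2))) ∨
        (q.1 % 2 = 0 ∧ 1 ≤ q.1 ∧ q.2.1 % 2 = 1 ∧ q.2.2 % 2 = 1 ∧
          S2 (q.1 / 2 - 1) (c2.nu (q.2.1 / 2)) (c2.nu (q.2.2 / 2))) :=
      funext fun q => propext (rel_iff S1 S2 c1.nu c2.nu q.1 q.2.1 q.2.2)
    rw [e]
    have a1 : Computable fun q : ℕ × ℕ × ℕ => q.2.1 := Computable.fst.comp Computable.snd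
    have a2 : Computable fun q : ℕ × ℕ × ℕ => q.2.2 := Computable.snd.comp Computable.snd
    have m0 : Computable fun q : ℕ × ℕ × ℕ => q.1 % 2 := c_mod2 Computable.fst
    have m1 : Computable fun q : ℕ × ℕ × ℕ => q.2.1 % 2 := c_mod2 a1
    have m2 : Computable fun q : ℕ × ℕ × ℕ => q.2.2 % 2 := c_mod2 a2
    have k0 : Computable fun _ : ℕ × ℕ × ℕ => (0 : ℕ) := Computable.const 0
    have k1 : Computable fun _ : ℕ × ℕ × ℕ => (1 : ℕ) := Computable.const 1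
    have d1 : Computable fun q : ℕ × ℕ × ℕ => (q.1 / 2, q.2.1 / 2, q.2.2 / 2) :=
      (c_div2 Computable.fst).pair ((c_div2 a1).pair (c_div2 a2))
    have d2 : Computable fun q : ℕ × ℕ × ℕ => (q.1 / 2 - 1, q.2.1 / 2, q.2.2 / 2) :=
      (c_sub (c_div2 Computable.fst) k1).pair ((c_div2 a1).pair (c_div2 a2))
    exact p_or (p_and (p_eq Computable.fst k0) (p_and
        (computablePred_comp (eq_comp' c1.eq_comp c2.eq_comp) (a1.pair a2)) (p_eq m1 k0)))
      (p_or (p_and (p_eq m0 k1) (p_and (p_eq m1 k0) (p_and (p_eq m2 k0)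
        (computablePred_comp c1.rel_comp d1))))
      (p_and (p_eq m0 k0) (p_and (p_le k1 Computable.fst) (p_and (p_eq m1 k1) (p_and (p_eq m2 k1)
        (computablePred_comp c2.rel_comp d2))))))

theorem RP_iff (R1 R2 : ℕ → ℕ → Prop) (n1 n2 : ℕ → ℕ) (a b : ℕ) :
    RP R1 R2 (nuc n1 n2 a) (nuc n1 n2 b) ↔
    (a % 2 = 0 ∧ b % 2 = 0 ∧ R1 (n1 (a / 2)) (n1 (b / 2))) ∨
    (a % 2 = 1 ∧ b % 2 = 1 ∧ R2 (n2 (a / 2)) (n2 (b / 2))) := by
  unfold RP
  rw [nuc_mod, nuc_mod]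
  constructor
  · rintro (⟨h1, h2, h3⟩ | ⟨h1, h2, h3⟩)
    · rw [nuc_div0 n1 n2 h1, nuc_div0 n1 n2 h2] at h3
      exact Or.inl ⟨h1, h2, h3⟩
    · rw [nuc_div1 n1 n2 h1, nuc_div1 n1 n2 h2] at h3
      exact Or.inr ⟨h1, h2, h3⟩
  · rintro (⟨h1, h2, h3⟩ | ⟨h1, h2, h3⟩)
    · rw [← nuc_div0 n1 n2 h1, ← nuc_div0 n1 n2 h2] at h3
      exact Or.inl ⟨h1, h2, h3⟩
    · rw [← nuc_div1 n1 n2 h1, ← nuc_div1 n1 n2 h2] at h3
      exact Or.inr ⟨h1, h2, h3⟩

/-- the decoding -/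
def dec (w : ℕ) : ℕ :=
  if w.unpair.1.unpair.1 % 2 = 0 ∧ w.unpair.1.unpair.2 % 2 = 0 then w.unpair.2.unpair.1
  else if w.unpair.1.unpair.1 % 2 = 1 ∧ w.unpair.1.unpair.2 % 2 = 1 then w.unpair.2.unpair.2
  else 0

theorem dec_comp : Computable dec := by
  have u1 : Primrec fun w : ℕ => w.unpair.1 := Primrec.fst.comp Primrec.unpair
  have u2 : Primrec fun w : ℕ => w.unpair.2 := Primrec.snd.comp Primrec.unpair
  have a : Primrec fun w : ℕ => w.unpair.1.unpair.1 % 2 :=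
    Primrec.nat_mod.comp (u1.comp u1) (Primrec.const 2)
  have b : Primrec fun w : ℕ => w.unpair.1.unpair.2 % 2 :=
    Primrec.nat_mod.comp (u2.comp u1) (Primrec.const 2)
  exact (Primrec.ite (PrimrecPred.and (Primrec.eq.comp a (Primrec.const 0))
    (Primrec.eq.comp b (Primrec.const 0))) (u1.comp u2)
    (Primrec.ite (PrimrecPred.and (Primrec.eq.comp a (Primrec.const 1))
      (Primrec.eq.comp b (Primrec.const 1))) (u2.comp u2) (Primrec.const 0))).to_comp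

theorem ch_eq {P Q : ℕ → Prop} {a b : ℕ} (h : P a ↔ Q b) : ch P a = ch Q b := by
  unfold ch
  by_cases hP : P a
  · rw [if_pos hP, if_pos (h.1 hP)]
  · rw [if_neg hP, if_neg (fun hq => hP (h.2 hq))]

theorem ch_zero {P : ℕ → Prop} {a : ℕ} (h : ¬ P a) : ch P a = 0 := by
  unfold ch
  rw [if_neg h]

theorem dec_pair (z u v : ℕ) : dec (Nat.pair z (Nat.pair u v)) =
    if z.unpair.1 % 2 = 0 ∧ z.unpair.2 % 2 = 0 then u
    else if z.unpair.1 % 2 = 1 ∧ z.unpair.2 % 2 = 1 then v else 0 := by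
  unfold dec
  simp only [Nat.unpair_pair]

theorem main : StPR1 := by
  intro S1 S2 R1 R2 c1 c2
  refine ⟨con S1 S2 c1 c2, ?_, ?_, ?_⟩
  · have hh : Computable fun z : ℕ => Nat.pair (z.unpair.1 / 2) (z.unpair.2 / 2) :=
      (Primrec₂.natPair.comp
        (Primrec.nat_div.comp (Primrec.fst.comp Primrec.unpair) (Primrec.const 2))
        (Primrec.nat_div.comp (Primrec.snd.comp Primrec.unpair) (Primrec.const 2))).to_comp
    set J := Pool.Agent.Helper743.join (img c1.nu R1) (img c2.nu R2) with hJ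
    have h1 : RecT {(J : ℕ →. ℕ)} (fun z => J (Nat.pair (z.unpair.1 / 2) (z.unpair.2 / 2))) :=
      Pool.Agent.Helper743.RecT.comp (Pool.Agent.Helper743.TR.refl J)
        (Pool.Agent.Helper743.Computable.recT hh)
    have h2 : RecT {(J : ℕ →. ℕ)} (fun z => dec (Nat.pair z
        (J (Nat.pair (z.unpair.1 / 2) (z.unpair.2 / 2))))) :=
      Pool.Agent.Helper743.RecT.comp (Pool.Agent.Helper743.Computable.recT dec_comp)
        (Pool.Agent.Helper743.RecT.pair (Pool.Agent.Helper743.Computable.recT Computable.id) h1)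
    have e : img (con S1 S2 c1 c2).nu (RP R1 R2) = fun z => dec (Nat.pair z
        (J (Nat.pair (z.unpair.1 / 2) (z.unpair.2 / 2)))) := by
      funext z
      show ch (fun z => RP R1 R2 (nuc c1.nu c2.nu z.unpair.1) (nuc c1.nu c2.nu z.unpair.2)) z =
        dec (Nat.pair z (Nat.pair (img c1.nu R1 (Nat.pair (z.unpair.1 / 2) (z.unpair.2 / 2)))
          (img c2.nu R2 (Nat.pair (z.unpair.1 / 2) (z.unpair.2 / 2)))))
      rw [dec_pair]
      by_cases e0 : z.unpair.1 % 2 = 0 ∧ z.unpair.2 % 2 = 0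
      · rw [if_pos e0]
        apply ch_eq
        rw [RP_iff, Nat.unpair_pair]
        constructor
        · rintro (h | h)
          · exact h.2.2
          · omega
        · intro h
          exact Or.inl ⟨e0.1, e0.2, h⟩
      · rw [if_neg e0]
        by_cases e1 : z.unpair.1 % 2 = 1 ∧ z.unpair.2 % 2 = 1
        · rw [if_pos e1]
          apply ch_eq
          rw [RP_iff, Nat.unpair_pair]
          constructor
          · rintro (h | h)
            · omega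
            · exact h.2.2
          · intro h
            exact Or.inr ⟨e1.1, e1.2, h⟩
        · rw [if_neg e1]
          apply ch_zero
          rw [RP_iff]
          rintro (h | h)
          · exact e0 ⟨h.1, h.2.1⟩
          · exact e1 ⟨h.1, h.2.1⟩
    show RecT _ _
    rw [e]
    exact h2
  · have hh : Computable fun z : ℕ => Nat.pair (2 * z.unpair.1) (2 * z.unpair.2) :=
      (Primrec₂.natPair.comp
        (Primrec.nat_mul.comp (Primrec.const 2) (Primrec.fst.comp Primrec.unpair))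
        (Primrec.nat_mul.comp (Primrec.const 2) (Primrec.snd.comp Primrec.unpair))).to_comp
    have h1 := Pool.Agent.Helper743.RecT.comp
      (Pool.Agent.Helper743.TR.refl (img (con S1 S2 c1 c2).nu (RP R1 R2)))
        (Pool.Agent.Helper743.Computable.recT hh)
    have e : img c1.nu R1 = fun z : ℕ => img (con S1 S2 c1 c2).nu (RP R1 R2)
        (Nat.pair (2 * z.unpair.1) (2 * z.unpair.2)) := by
      funext z
      show ch (fun z => R1 (c1.nu z.unpair.1) (c1.nu z.unpair.2)) z =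
        ch (fun z => RP R1 R2 (nuc c1.nu c2.nu z.unpair.1) (nuc c1.nu c2.nu z.unpair.2)) _
      apply ch_eq
      rw [RP_iff, Nat.unpair_pair]
      have d1 : 2 * z.unpair.1 / 2 = z.unpair.1 := by omega
      have d2 : 2 * z.unpair.2 / 2 = z.unpair.2 := by omega
      rw [d1, d2]
      constructor
      · intro h
        exact Or.inl ⟨by omega, by omega, h⟩
      · rintro (h | h)
        · exact h.2.2
        · omega
    show RecT _ _
    rw [e]
    exact h1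
  · have hh : Computable fun z : ℕ => Nat.pair (2 * z.unpair.1 + 1) (2 * z.unpair.2 + 1) :=
      (Primrec₂.natPair.comp
        (Primrec.succ.comp (Primrec.nat_mul.comp (Primrec.const 2)
          (Primrec.fst.comp Primrec.unpair)))
        (Primrec.succ.comp (Primrec.nat_mul.comp (Primrec.const 2)
          (Primrec.snd.comp Primrec.unpair)))).to_comp
    have h1 := Pool.Agent.Helper743.RecT.comp
      (Pool.Agent.Helper743.TR.refl (img (con S1 S2 c1 c2).nu (RP R1 R2)))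
        (Pool.Agent.Helper743.Computable.recT hh)
    have e : img c2.nu R2 = fun z : ℕ => img (con S1 S2 c1 c2).nu (RP R1 R2)
        (Nat.pair (2 * z.unpair.1 + 1) (2 * z.unpair.2 + 1)) := by
      funext z
      show ch (fun z => R2 (c2.nu z.unpair.1) (c2.nu z.unpair.2)) z =
        ch (fun z => RP R1 R2 (nuc c1.nu c2.nu z.unpair.1) (nuc c1.nu c2.nu z.unpair.2)) _
      apply ch_eq
      rw [RP_iff, Nat.unpair_pair]
      have d1 : (2 * z.unpair.1 + 1) / 2 = z.unpair.1 := by omega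
      have d2 : (2 * z.unpair.2 + 1) / 2 = z.unpair.2 := by omega
      simp only []
      rw [d1, d2]
      constructor
      · intro h
        exact Or.inr ⟨by omega, by omega, h⟩
      · rintro (h | h)
        · omega
        · exact h.2.2
    show RecT _ _
    rw [e]
    exact h1

end Pool.Agent.H552R8.DS.PR1_c
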