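import Pool.Agent.H552R8.DS.Stubs2

set_option autoImplicit false

namespace Pool.Agent.H552R8.DS.PR2_c

open Pool.Agent.Helper941 Pool.Agent.Helper941.Dim Pool.Agent.Helper941.IsoProb
open Pool.Agent.Helper743 (TR RecT)
open Pool.Agent.H552R8.DS

theorem ch_congr {P Q : ℕ → Prop} {n m : ℕ} (h : P n ↔ Q m) : ch P n = ch Q m := by
  unfold ch
  by_cases hP : P n
  · rw [if_pos hP, if_pos (h.1 hP)]
  · rw [if_neg hP, if_neg (fun hq => hP (h.2 hq))]

theorem ch_zero {P : ℕ → Prop} {n : ℕ} (h : ¬ P n) : ch P n = 0 := by
  unfold ch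
  rw [if_neg h]

theorem cfst : Computable fun n : ℕ => n.unpair.1 := Computable.fst.comp Computable.unpair

theorem csnd : Computable fun n : ℕ => n.unpair.2 := Computable.snd.comp Computable.unpair

theorem cpair {f g : ℕ → ℕ} (hf : Computable f) (hg : Computable g) :
    Computable fun n => Nat.pair (f n) (g n) :=
  (Primrec₂.natPair.to_comp).comp hf hg

theorem main : StPR2 := by
  classical
  intro S1 S2 R1 R2 c
  obtain ⟨g, hg, hgp⟩ := ComputablePred.computable_iff.1 c.rel_comp
  obtain ⟨h, hh, hhp⟩ := ComputablePred.computable_iff.1 c.eq_comp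
  have hg' : ∀ i x y, SP S1 S2 i (c.nu x) (c.nu y) ↔ g (i, x, y) = true := fun i x y =>
    Iff.of_eq (congrFun hgp (i, x, y))
  have hh' : ∀ x y, c.nu x = c.nu y ↔ h (x, y) = true := fun x y =>
    Iff.of_eq (congrFun hhp (x, y))
  obtain ⟨e, hed⟩ : ∃ e : ℕ → Bool, e = fun z => g (0, z, z) := ⟨_, rfl⟩
  have he : Computable e := by
    rw [hed]
    exact hg.comp (Computable.pair (Computable.const 0) (Computable.pair Computable.id Computable.id))
  have hee : ∀ z, e z = true ↔ c.nu z % 2 = 0 := by
    intro z
    rw [hed]
    show g (0, z, z) = true ↔ _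
    rw [← hg' 0 z z]
    unfold SP
    constructor
    · rintro (h1 | h1 | h1)
      · exact h1.2.2
      · omega
      · omega
    · intro h1
      exact Or.inl ⟨rfl, rfl, h1⟩
  obtain ⟨z1, hz1⟩ := c.surj 0
  obtain ⟨z2, hz2⟩ := c.surj 1
  obtain ⟨s1, hs1d⟩ : ∃ s1 : ℕ → ℕ, s1 = fun z => cond (e z) z z1 := ⟨_, rfl⟩
  obtain ⟨s2, hs2d⟩ : ∃ s2 : ℕ → ℕ, s2 = fun z => cond (e z) z2 z := ⟨_, rfl⟩
  have hs1 : Computable s1 := by
    rw [hs1d]
    exact Computable.cond he Computable.id (Computable.const z1)
  have hs2 : Computable s2 := by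
    rw [hs2d]
    exact Computable.cond he (Computable.const z2) Computable.id
  have q1 : ∀ z, c.nu z % 2 = 0 → s1 z = z := by
    intro z hz
    rw [hs1d]
    show cond (e z) z z1 = z
    rw [(hee z).2 hz]; rfl
  have nq : ∀ z, ¬ c.nu z % 2 = 0 → e z = false := by
    intro z hz
    have := mt (hee z).1 hz
    simpa using this
  have q2 : ∀ z, ¬ c.nu z % 2 = 0 → s2 z = z := by
    intro z hz
    rw [hs2d]
    show cond (e z) z2 z = z
    rw [nq z hz]; rfl
  have p1 : ∀ z, c.nu (s1 z) % 2 = 0 := by
    intro z
    by_cases hz : c.nu z % 2 = 0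
    · rw [q1 z hz, hz]
    · rw [hs1d]
      show c.nu (cond (e z) z z1) % 2 = 0
      rw [nq z hz]
      show c.nu z1 % 2 = 0
      rw [hz1]
  have p2 : ∀ z, c.nu (s2 z) % 2 = 1 := by
    intro z
    by_cases hz : c.nu z % 2 = 0
    · rw [hs2d]
      show c.nu (cond (e z) z2 z) % 2 = 1
      rw [(hee z).2 hz]
      show c.nu z2 % 2 = 1
      rw [hz2]
    · rw [q2 z hz]; omega
  let c1 : Constr S1 :=
    { nu := fun z => c.nu (s1 z) / 2
      surj := by
        intro x
        obtain ⟨z, hz⟩ := c.surj (2 * x)
        refine ⟨z, ?_⟩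
        show c.nu (s1 z) / 2 = x
        rw [q1 z (by omega), hz]; omega
      eq_comp := by
        refine ComputablePred.computable_iff.2 ⟨fun p => h (s1 p.1, s1 p.2),
          hh.comp (Computable.pair (hs1.comp Computable.fst) (hs1.comp Computable.snd)),
          funext fun p => propext ?_⟩
        rw [← hh']
        have h1 := p1 p.1
        have h2 := p1 p.2
        constructor
        · intro h3; omega
        · intro h3; rw [h3]
      rel_comp := by
        refine ComputablePred.computable_iff.2 ⟨fun q => g (2 * q.1 + 1, s1 q.2.1, s1 q.2.2),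
          hg.comp (Computable.pair (Primrec.succ.comp
            (Primrec.nat_mul.comp (Primrec.const 2) Primrec.fst)).to_comp
            (Computable.pair (hs1.comp (Computable.fst.comp Computable.snd))
              (hs1.comp (Computable.snd.comp Computable.snd)))),
          funext fun q => propext ?_⟩
        rw [← hg']
        have h1 := p1 q.2.1
        have h2 := p1 q.2.2
        have h3 : (2 * q.1 + 1) / 2 = q.1 := by omega
        unfold SP
        constructor
        · intro h4
          refine Or.inr (Or.inl ⟨by omega, h1, h2, ?_⟩)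
          rw [h3]; exact h4
        · rintro (h4 | h4 | h4)
          · omega
          · have := h4.2.2.2
            rw [h3] at this; exact this
          · omega }
  let c2 : Constr S2 :=
    { nu := fun z => c.nu (s2 z) / 2
      surj := by
        intro x
        obtain ⟨z, hz⟩ := c.surj (2 * x + 1)
        refine ⟨z, ?_⟩
        show c.nu (s2 z) / 2 = x
        rw [q2 z (by omega), hz]; omega
      eq_comp := by
        refine ComputablePred.computable_iff.2 ⟨fun p => h (s2 p.1, s2 p.2),
          hh.comp (Computable.pair (hs2.comp Computable.fst) (hs2.comp Computable.snd)),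
          funext fun p => propext ?_⟩
        rw [← hh']
        have h1 := p2 p.1
        have h2 := p2 p.2
        constructor
        · intro h3; omega
        · intro h3; rw [h3]
      rel_comp := by
        refine ComputablePred.computable_iff.2 ⟨fun q => g (2 * q.1 + 1 + 1, s2 q.2.1, s2 q.2.2),
          hg.comp (Computable.pair (Primrec.succ.comp (Primrec.succ.comp
            (Primrec.nat_mul.comp (Primrec.const 2) Primrec.fst))).to_comp
            (Computable.pair (hs2.comp (Computable.fst.comp Computable.snd))
              (hs2.comp (Computable.snd.comp Computable.snd)))),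
          funext fun q => propext ?_⟩
        rw [← hg']
        have h1 := p2 q.2.1
        have h2 := p2 q.2.2
        have h3 : (2 * q.1 + 1 + 1) / 2 - 1 = q.1 := by omega
        unfold SP
        constructor
        · intro h4
          refine Or.inr (Or.inr ⟨by omega, by omega, h1, h2, ?_⟩)
          rw [h3]; exact h4
        · rintro (h4 | h4 | h4)
          · omega
          · omega
          · have := h4.2.2.2.2
            rw [h3] at this; exact this }
  have k1 : img c1.nu R1 = fun z => img c.nu (RP R1 R2)
      (Nat.pair (s1 z.unpair.1) (s1 z.unpair.2)) := by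
    funext z
    unfold img
    apply ch_congr
    rw [Nat.unpair_pair]
    show R1 (c.nu (s1 z.unpair.1) / 2) (c.nu (s1 z.unpair.2) / 2) ↔
      RP R1 R2 (c.nu (s1 z.unpair.1)) (c.nu (s1 z.unpair.2))
    have h1 := p1 z.unpair.1
    have h2 := p1 z.unpair.2
    unfold RP
    constructor
    · intro h3; exact Or.inl ⟨h1, h2, h3⟩
    · rintro (h3 | h3)
      · exact h3.2.2
      · omega
  have k2 : img c2.nu R2 = fun z => img c.nu (RP R1 R2)
      (Nat.pair (s2 z.unpair.1) (s2 z.unpair.2)) := by
    funext z
    unfold img
    apply ch_congr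
    rw [Nat.unpair_pair]
    show R2 (c.nu (s2 z.unpair.1) / 2) (c.nu (s2 z.unpair.2) / 2) ↔
      RP R1 R2 (c.nu (s2 z.unpair.1)) (c.nu (s2 z.unpair.2))
    have h1 := p2 z.unpair.1
    have h2 := p2 z.unpair.2
    unfold RP
    constructor
    · intro h3; exact Or.inr ⟨h1, h2, h3⟩
    · rintro (h3 | h3)
      · omega
      · exact h3.2.2
  refine ⟨c1, c2, ?_, ?_, ?_⟩
  · let F : ℕ → ℕ := fun w => cond (e w.unpair.1.unpair.1)
      (cond (e w.unpair.1.unpair.2) w.unpair.2.unpair.1 0)
      (cond (e w.unpair.1.unpair.2) 0 w.unpair.2.unpair.2)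
    have hF : Computable F :=
      Computable.cond (he.comp (cfst.comp cfst))
        (Computable.cond (he.comp (csnd.comp cfst)) (cfst.comp csnd) (Computable.const 0))
        (Computable.cond (he.comp (csnd.comp cfst)) (Computable.const 0) (csnd.comp csnd))
    have h1 := (Pool.Agent.Helper743.Computable.recT
        (O := {((Pool.Agent.Helper743.join (img c1.nu R1) (img c2.nu R2) : ℕ → ℕ) : ℕ →. ℕ)})
        hF).comp (RecT.pair (Pool.Agent.Helper743.Computable.recT Computable.id)
        (TR.refl (Pool.Agent.Helper743.join (img c1.nu R1) (img c2.nu R2))))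
    have h2 : (fun n => F (Nat.pair (id n)
        (Pool.Agent.Helper743.join (img c1.nu R1) (img c2.nu R2) n))) =
        img c.nu (RP R1 R2) := by
      funext z
      simp only [F, Pool.Agent.Helper743.join, id, Nat.unpair_pair]
      by_cases ha : c.nu z.unpair.1 % 2 = 0
      · rw [(hee _).2 ha]
        by_cases hb : c.nu z.unpair.2 % 2 = 0
        · rw [(hee _).2 hb]
          show img c1.nu R1 z = _
          rw [k1]
          show img c.nu (RP R1 R2) (Nat.pair (s1 z.unpair.1) (s1 z.unpair.2)) = _
          rw [q1 _ ha, q1 _ hb, Nat.pair_unpair]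
        · rw [nq _ hb]
          show 0 = _
          symm
          apply ch_zero
          unfold RP
          rintro (h3 | h3)
          · exact hb h3.2.1
          · have := h3.1; omega
      · rw [nq _ ha]
        by_cases hb : c.nu z.unpair.2 % 2 = 0
        · rw [(hee _).2 hb]
          show 0 = _
          symm
          apply ch_zero
          unfold RP
          rintro (h3 | h3)
          · exact ha h3.1
          · have := h3.2.1; omega
        · rw [nq _ hb]
          show img c2.nu R2 z = _
          rw [k2]
          show img c.nu (RP R1 R2) (Nat.pair (s2 z.unpair.1) (s2 z.unpair.2)) = _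
          rw [q2 _ ha, q2 _ hb, Nat.pair_unpair]
    rw [h2] at h1
    exact h1
  · rw [k1]
    exact RecT.comp (TR.refl (img c.nu (RP R1 R2))) (Pool.Agent.Helper743.Computable.recT
      (cpair (hs1.comp cfst) (hs1.comp csnd)))
  · rw [k2]
    exact RecT.comp (TR.refl (img c.nu (RP R1 R2))) (Pool.Agent.Helper743.Computable.recT
      (cpair (hs2.comp cfst) (hs2.comp csnd)))

end Pool.Agent.H552R8.DS.PR2_c
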