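import Mathlib
import Pool.Agent.H552R8.DS.One
import Pool.Agent.H552R8.DS.Final2
import Pool.Agent.H552R8.DS.PR1_c
import Pool.Agent.H552R8.DS.PR2_c
import Pool.Agent.H552R8.DS.BASE_b
import Pool.Agent.H552R8.DS.LUB

set_option autoImplicit false

namespace Pool.Agent.H552R8.DS

open Pool.Agent.Helper941.IsoProb

theorem all (A : ℕ → Prop) (L : Set TuringDegree) (hfin : L.Finite)
    (hA : deg (ch A) ∈ L)
    (hL : ∀ d ∈ L, d = deg (ch A) ∨ ∃ (n : ℕ) (B : ℕ → Prop), 3 ≤ n ∧ Sigma0 n B ∧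
      (∀ S : ℕ → Prop, Sigma0 (n - 1) S →
        TuringReducible (fun z => Part.some (ch S z)) (fun z => Part.some (ch B z))) ∧
      d = deg (fun z => Nat.pair (ch A z) (ch B z)))
    (hsup : ∀ d₁ ∈ L, ∀ d₂ ∈ L, ∀ d, IsLUB {d₁, d₂} d → d ∈ L) :
    ∃ (S : ℕ → ℕ → ℕ → Prop) (R : ℕ → ℕ → Prop), Nonempty (Constr S) ∧ DgSp S R = L :=
  two one PR1_c.main PR2_c.main BASE.main LUB.main A L hfin hA hL hsup

end Pool.Agent.H552R8.DS
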